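import Mathlib

/-!
# Metric graphs, Neumann-Kirchhoff eigenfunctions and the wavelength capacity

Definitions used in the statement, following the conventions of the problem file.
-/

set_option autoImplicit false

open MeasureTheory Set Filter Topology

namespace Pool.Agent.Lib.MP_ecbb05_mp

/-- A metric graph with finitely many vertices and edges. The edge `e` is a copy of the interval
`[0, len e]`, attached at its two ends to the vertices `src e` and `tgt e`. -/
structure MetricGraph where
  /-- the vertices -/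
  V : Type
  /-- the edges -/
  E : Type
  /-- there are finitely many vertices -/
  finV : Finite V
  /-- there are finitely many edges -/
  finE : Finite E
  /-- the vertex at the end `0` of an edge -/
  src : E → V
  /-- the vertex at the end `len e` of an edge -/
  tgt : E → V
  /-- the edge lengths -/
  len : E → ℝ
  /-- the lengths are positive -/
  len_pos : ∀ e : E, 0 < len e

namespace MetricGraph

/-- The points of the metric graph: the vertices and the interior points of the edges. -/
inductive Point (Γ : MetricGraph) : Type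
  /-- a vertex as a point of the graph -/
  | vertex (v : Γ.V) : Point Γ
  /-- the point of the open edge `e` with coordinate `x` -/
  | inner (e : Γ.E) (x : ℝ) (h : x ∈ Ioo 0 (Γ.len e)) : Point Γ

/-- The point of the edge `e` with coordinate `x ∈ [0, len e]`. (Coordinates `x ≤ 0` give the
vertex `src e` and coordinates `x ≥ len e` give the vertex `tgt e`.) -/
noncomputable def pt (Γ : MetricGraph) (e : Γ.E) (x : ℝ) : Γ.Point := by
  classical exact
    if h : x ∈ Ioo 0 (Γ.len e) then Point.inner e x h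
    else if x ≤ 0 then Point.vertex (Γ.src e) else Point.vertex (Γ.tgt e)

/-- The topology of the metric graph: the quotient topology of the disjoint union of the edges,
that is, `U` is open when for every edge `e` the set of `x` with `pt e x ∈ U` is open. -/
noncomputable instance (Γ : MetricGraph) : TopologicalSpace Γ.Point :=
  ⨆ e : Γ.E, TopologicalSpace.coinduced (Γ.pt e) inferInstance

/-- The degree of a vertex (a loop counts twice). -/
noncomputable def deg (Γ : MetricGraph) (v : Γ.V) : ℕ :=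
  {e : Γ.E | Γ.src e = v}.ncard + {e : Γ.E | Γ.tgt e = v}.ncard

/-- The graph is connected and every vertex has degree one (boundary vertex) or at least three
(interior vertex). -/
def IsStandard (Γ : MetricGraph) : Prop :=
  ConnectedSpace Γ.Point ∧ ∀ v : Γ.V, Γ.deg v = 1 ∨ 3 ≤ Γ.deg v

/-- The derivative of `F` along the edge `e`, at the coordinate `x ∈ [0, len e]` (one-sided at the
ends). -/
noncomputable def edgeDeriv (Γ : MetricGraph) (F : Γ.Point → ℝ) (e : Γ.E) (x : ℝ) : ℝ :=
  derivWithin (fun y : ℝ => F (Γ.pt e y)) (Icc 0 (Γ.len e)) x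

/-- `F` solves `-F'' = κ² F` on every edge and satisfies the Neumann-Kirchhoff conditions: `F` is
continuous (the vertices being points of the graph) and at every vertex the outgoing derivatives
sum to zero. -/
def IsEigenfunction (Γ : MetricGraph) (κ : ℝ) (F : Γ.Point → ℝ) : Prop :=
  (∀ (e : Γ.E), ∀ x ∈ Icc 0 (Γ.len e),
    HasDerivWithinAt (fun y : ℝ => F (Γ.pt e y)) (Γ.edgeDeriv F e x) (Icc 0 (Γ.len e)) x ∧
    HasDerivWithinAt (Γ.edgeDeriv F e) (-(κ ^ 2 * F (Γ.pt e x))) (Icc 0 (Γ.len e)) x) ∧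
  ∀ v : Γ.V, ∑ᶠ e ∈ {e : Γ.E | Γ.src e = v}, Γ.edgeDeriv F e 0 +
    ∑ᶠ e ∈ {e : Γ.E | Γ.tgt e = v}, -(Γ.edgeDeriv F e (Γ.len e)) = 0

/-- `0 ≤ k_0 ≤ k_1 ≤ ...` and `f_0, f_1, ...` list the eigenvalues `k_n²` with multiplicity and
corresponding eigenfunctions: for every `κ ≥ 0` the `f_n` with `k_n = κ` are a basis of the space
of eigenfunctions with eigenvalue `κ²`. -/
structure IsSpectralList (Γ : MetricGraph) (k : ℕ → ℝ) (f : ℕ → Γ.Point → ℝ) : Prop where
  /-- the `k_n` are in increasing order -/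
  mono : Monotone k
  /-- `k_n ≥ 0` -/
  nonneg : ∀ n : ℕ, 0 ≤ k n
  /-- `f_n` is an eigenfunction with eigenvalue `k_n²` -/
  isEigenfunction : ∀ n : ℕ, Γ.IsEigenfunction (k n) (f n)
  /-- for each `κ`, the `f_n` with `k_n = κ` are linearly independent -/
  linearIndependent : ∀ κ : ℝ, LinearIndependent ℝ (fun n : {n : ℕ // k n = κ} => f n)
  /-- for each `κ ≥ 0`, the `f_n` with `k_n = κ` span the eigenspace of `κ²` -/
  spans : ∀ κ : ℝ, 0 ≤ κ → ∀ F : Γ.Point → ℝ, Γ.IsEigenfunction κ F →
    F ∈ Submodule.span ℝ {G : Γ.Point → ℝ | ∃ n : ℕ, k n = κ ∧ f n = G}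

/-- `f_n` is generic: `k_n²` is simple, `f_n` vanishes at no vertex, and no outgoing derivative
of `f_n` at an interior vertex vanishes. -/
def IsGeneric (Γ : MetricGraph) (k : ℕ → ℝ) (f : ℕ → Γ.Point → ℝ) (n : ℕ) : Prop :=
  (∀ m : ℕ, k m = k n → m = n) ∧ (∀ v : Γ.V, f n (Point.vertex v) ≠ 0) ∧
  (∀ e : Γ.E, 3 ≤ Γ.deg (Γ.src e) → Γ.edgeDeriv (f n) e 0 ≠ 0) ∧
  (∀ e : Γ.E, 3 ≤ Γ.deg (Γ.tgt e) → Γ.edgeDeriv (f n) e (Γ.len e) ≠ 0)

/-- The Neumann points of `F`: the interior edge points where the derivative vanishes. -/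
def neumannPoints (Γ : MetricGraph) (F : Γ.Point → ℝ) : Set Γ.Point :=
  {p : Γ.Point | ∃ (e : Γ.E) (x : ℝ), x ∈ Ioo 0 (Γ.len e) ∧ Γ.edgeDeriv F e x = 0 ∧ p = Γ.pt e x}

/-- The Neumann domain of `F` containing the vertex `v`: the closure of the connected component
of `v` in the complement of the set of Neumann points. -/
def neumannDomain (Γ : MetricGraph) (F : Γ.Point → ℝ) (v : Γ.V) : Set Γ.Point :=
  closure (connectedComponentIn (Γ.neumannPoints F)ᶜ (Point.vertex v))

/-- The total length of a subset of the graph. -/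
noncomputable def totalLength (Γ : MetricGraph) (S : Set Γ.Point) : ℝ :=
  ∑ᶠ e : Γ.E, (volume {x : ℝ | x ∈ Ioo 0 (Γ.len e) ∧ Γ.pt e x ∈ S}).toReal

/-- The wavelength capacity `ρ^{(v)}(n) = k_n |Ω_n^{(v)}| / π`. -/
noncomputable def capacity (Γ : MetricGraph) (v : Γ.V) (k : ℕ → ℝ) (f : ℕ → Γ.Point → ℝ)
    (n : ℕ) : ℝ :=
  k n * Γ.totalLength (Γ.neumannDomain (f n) v) / Real.pi

/-- `A` has density `d` in `G`: `|A ∩ G(N)| / |G(N)| → d`, where `G(N) = {n ∈ G : n ≤ N}`. -/
def HasDensity (G A : Set ℕ) (d : ℝ) : Prop :=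
  Tendsto (fun N : ℕ => ((A ∩ {n ∈ G | n ≤ N}).ncard : ℝ) / ({n ∈ G | n ≤ N}.ncard : ℝ))
    atTop (𝓝 d)

/-- The density `dens` and the discrete measure of finite support `p` describe the distribution
of the wavelength capacity at `v`, as in the problem file: for every interval `(a,b)` the density
in `𝒢` of the set of the `n ∈ 𝒢` with `ρ^{(v)}(n) ∈ (a,b)` is
`∫_a^b dens + ∑_{x ∈ (a,b)} p(x)`. -/
def IsCapacityLaw (Γ : MetricGraph) (v : Γ.V) (k : ℕ → ℝ) (f : ℕ → Γ.Point → ℝ)
    (dens p : ℝ → ℝ) : Prop :=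
  Integrable dens ∧ (Function.support p).Finite ∧
  ∀ a b : ℝ, a < b →
    HasDensity {n | Γ.IsGeneric k f n} {n | Γ.IsGeneric k f n ∧ Γ.capacity v k f n ∈ Ioo a b}
      ((∫ x in a..b, dens x) + ∑ᶠ x ∈ Ioo a b, p x)

/-- The figure-eight graph: one vertex and two loops, of lengths `a` and `b`. -/
def figureEight (a b : ℝ) (ha : 0 < a) (hb : 0 < b) : MetricGraph where
  V := Unit
  E := Bool
  finV := inferInstance
  finE := inferInstance
  src := fun _ => ()
  tgt := fun _ => ()
  len := fun e => cond e b a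
  len_pos := by
    intro e
    cases e
    · exact ha
    · exact hb

end MetricGraph

end Pool.Agent.Lib.MP_ecbb05_mp
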