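import Pool.Agent.Lib.MP_ecbb05_mp.Edge

set_option autoImplicit false

open MeasureTheory Set Filter Topology

namespace Pool.Agent.Lib.MP_ecbb05_mp

namespace MetricGraph

variable {Γ : MetricGraph}

lemma pt_eq_inner_iff {e : Γ.E} {y : ℝ} {e' : Γ.E} {x : ℝ} (hx : x ∈ Ioo 0 (Γ.len e')) :
    Γ.pt e y = Γ.pt e' x ↔ e = e' ∧ y = x := by
  constructor
  · intro h
    rw [Γ.pt_of_mem hx] at h
    by_cases hy : y ∈ Ioo 0 (Γ.len e)
    · rw [Γ.pt_of_mem hy] at h
      injection h with h1 h2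
      exact ⟨h1, h2⟩
    · exfalso
      rcases lt_or_ge 0 y with h0 | h0
      · have : Γ.len e ≤ y := by
          by_contra hc
          exact hy ⟨h0, not_le.mp hc⟩
        rw [Γ.pt_of_ge this] at h
        cases h
      · rw [Γ.pt_of_le h0] at h
        cases h
  · rintro ⟨rfl, rfl⟩
    rfl

lemma pt_ne_vertex {v : Γ.V} {e' : Γ.E} {x : ℝ} (hx : x ∈ Ioo 0 (Γ.len e')) :
    Γ.pt e' x ≠ Point.vertex v := by
  rw [Γ.pt_of_mem hx]
  intro h
  cases h

/-- every point is a vertex or an interior point of an edge -/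
lemma point_cases (p : Γ.Point) :
    (∃ v : Γ.V, p = Point.vertex v) ∨ ∃ (e : Γ.E) (x : ℝ), x ∈ Ioo 0 (Γ.len e) ∧ p = Γ.pt e x := by
  cases p with
  | vertex v => exact Or.inl ⟨v, rfl⟩
  | inner e x h => exact Or.inr ⟨e, x, h, (Γ.pt_of_mem h).symm⟩

section bouquet

variable (v : Γ.V) (hv : ∀ w : Γ.V, w = v) (t : Γ.E → ℝ)

/-- the neighbourhood of the vertex -/
def SS (t : Γ.E → ℝ) (v : Γ.V) : Set Γ.Point :=
  {p | p = Point.vertex v ∨ ∃ (e : Γ.E) (x : ℝ), x ∈ Ioo 0 (Γ.len e) ∧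
    (x < t e ∨ Γ.len e - t e < x) ∧ p = Γ.pt e x}

/-- the middle parts -/
def TT (t : Γ.E → ℝ) : Set Γ.Point :=
  {p | ∃ (e : Γ.E) (x : ℝ), x ∈ Ioo 0 (Γ.len e) ∧ (t e < x ∧ x < Γ.len e - t e) ∧ p = Γ.pt e x}

include hv in
lemma pt_mem_SS (ht0 : ∀ e, 0 < t e) (e : Γ.E) (x : ℝ) :
    Γ.pt e x ∈ SS t v ↔ (x < t e ∨ Γ.len e - t e < x) := by
  by_cases hx : x ∈ Ioo 0 (Γ.len e)
  · constructor
    · rintro (h | ⟨e', x', hx', h', h⟩)
      · exact absurd h (pt_ne_vertex hx)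
      · rw [pt_eq_inner_iff hx'] at h
        obtain ⟨rfl, rfl⟩ := h
        exact h'
    · intro h
      exact Or.inr ⟨e, x, hx, h, rfl⟩
  · have h1 : Γ.pt e x = Point.vertex v := by
      rcases lt_or_ge 0 x with h0 | h0
      · have : Γ.len e ≤ x := by
          by_contra hc
          exact hx ⟨h0, not_le.mp hc⟩
        rw [Γ.pt_of_ge this, hv (Γ.tgt e)]
      · rw [Γ.pt_of_le h0, hv (Γ.src e)]
    constructor
    · intro _
      have := ht0 e
      rcases lt_or_ge 0 x with h0 | h0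
      · have : Γ.len e ≤ x := by
          by_contra hc
          exact hx ⟨h0, not_le.mp hc⟩
        right; linarith
      · left; linarith
    · intro _
      exact Or.inl h1

lemma pt_mem_TT (ht0 : ∀ e, 0 < t e) (e : Γ.E) (x : ℝ) :
    Γ.pt e x ∈ TT t ↔ (t e < x ∧ x < Γ.len e - t e) := by
  have := ht0 e
  constructor
  · rintro ⟨e', x', hx', h', h⟩
    rw [pt_eq_inner_iff hx'] at h
    obtain ⟨rfl, rfl⟩ := h
    exact h'
  · intro h
    exact ⟨e, x, ⟨by linarith [h.1], by linarith [h.2]⟩, h, rfl⟩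

include hv in
lemma isOpen_SS (ht0 : ∀ e, 0 < t e) : IsOpen (SS t v) := by
  rw [isOpen_iff]
  intro e
  have : Γ.pt e ⁻¹' SS t v = Iio (t e) ∪ Ioi (Γ.len e - t e) := by
    ext x
    exact pt_mem_SS v hv t ht0 e x
  rw [this]
  exact isOpen_Iio.union isOpen_Ioi

lemma isOpen_TT (ht0 : ∀ e, 0 < t e) : IsOpen (TT t : Set Γ.Point) := by
  rw [isOpen_iff]
  intro e
  have : Γ.pt e ⁻¹' TT t = Ioo (t e) (Γ.len e - t e) := by
    ext x
    exact pt_mem_TT t ht0 e x
  rw [this]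
  exact isOpen_Ioo

include hv in
lemma isPreconnected_SS (ht0 : ∀ e, 0 < t e) :
    IsPreconnected (SS t v) := by
  have h1 : SS t v = ⋃₀ ({{Point.vertex v}} ∪ (range (fun e : Γ.E => Γ.pt e '' Iio (t e)) ∪
      range (fun e : Γ.E => Γ.pt e '' Ioi (Γ.len e - t e)))) := by
    ext p
    constructor
    · rintro (h | ⟨e, x, hx, h | h, rfl⟩)
      · exact ⟨_, Or.inl rfl, h⟩
      · exact ⟨_, Or.inr (Or.inl ⟨e, rfl⟩), ⟨x, h, rfl⟩⟩
      · exact ⟨_, Or.inr (Or.inr ⟨e, rfl⟩), ⟨x, h, rfl⟩⟩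
    · rintro ⟨s, (hs | ⟨e, rfl⟩ | ⟨e, rfl⟩), hp⟩
      · rw [mem_singleton_iff] at hs
        subst hs
        exact Or.inl hp
      · obtain ⟨x, hx, rfl⟩ := hp
        rw [pt_mem_SS v hv t ht0]
        exact Or.inl hx
      · obtain ⟨x, hx, rfl⟩ := hp
        rw [pt_mem_SS v hv t ht0]
        exact Or.inr hx
  rw [h1]
  apply isPreconnected_sUnion (Point.vertex v)
  · rintro s (hs | ⟨e, rfl⟩ | ⟨e, rfl⟩)
    · rw [mem_singleton_iff] at hs
      subst hs
      rfl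
    · exact ⟨0, ht0 e, by rw [pt_zero, hv (Γ.src e)]⟩
    · refine ⟨Γ.len e, ?_, by rw [pt_len, hv (Γ.tgt e)]⟩
      have := ht0 e
      simp only [mem_Ioi]
      linarith
  · rintro s (hs | ⟨e, rfl⟩ | ⟨e, rfl⟩)
    · rw [mem_singleton_iff] at hs
      subst hs
      exact isPreconnected_singleton
    · exact isPreconnected_Iio.image _ (Γ.continuous_pt e).continuousOn
    · exact isPreconnected_Ioi.image _ (Γ.continuous_pt e).continuousOn

include hv in
lemma component_eq (ht0 : ∀ e, 0 < t e) (F : Γ.Point → ℝ)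
    (hN1 : ∀ e, Γ.edgeDeriv F e (t e) = 0 ∧ Γ.edgeDeriv F e (Γ.len e - t e) = 0)
    (hN2 : ∀ e, ∀ x ∈ Ioo 0 (Γ.len e), (x < t e ∨ Γ.len e - t e < x) → Γ.edgeDeriv F e x ≠ 0) :
    connectedComponentIn (Γ.neumannPoints F)ᶜ (Point.vertex v) = SS t v := by
  have hsub : SS t v ⊆ (Γ.neumannPoints F)ᶜ := by
    rintro p hp ⟨e, x, hx, h0, rfl⟩
    rw [pt_mem_SS v hv t ht0] at hp
    exact hN2 e x hx hp h0
  have hvS : (Point.vertex v : Γ.Point) ∈ SS t v := Or.inl rfl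
  have hcov : (Γ.neumannPoints F)ᶜ ⊆ SS t v ∪ TT t := by
    intro p hp
    rcases point_cases p with ⟨w, rfl⟩ | ⟨e, x, hx, rfl⟩
    · rw [hv w]
      exact Or.inl hvS
    · rw [mem_union, pt_mem_SS v hv t ht0, pt_mem_TT t ht0]
      by_contra hc
      push Not at hc
      obtain ⟨⟨h1, h2⟩, h3⟩ := hc
      apply hp
      rcases eq_or_lt_of_le h1 with h4 | h4
      · exact ⟨e, x, hx, by rw [← h4]; exact (hN1 e).1, rfl⟩
      · have h5 : x = Γ.len e - t e := le_antisymm h2 (h3 h4)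
        exact ⟨e, x, hx, by rw [h5]; exact (hN1 e).2, rfl⟩
  apply Subset.antisymm
  · intro p hp
    have hpc : p ∈ SS t v ∪ TT t := hcov (connectedComponentIn_subset _ _ hp)
    rcases hpc with h | h
    · exact h
    · exfalso
      have hpre : IsPreconnected (connectedComponentIn (Γ.neumannPoints F)ᶜ (Point.vertex v)) :=
        isPreconnected_connectedComponentIn
      have hvC : (Point.vertex v : Γ.Point) ∈
          connectedComponentIn (Γ.neumannPoints F)ᶜ (Point.vertex v) :=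
        mem_connectedComponentIn (hsub hvS)
      obtain ⟨q, -, hq1, hq2⟩ := hpre (SS t v) (TT t) (isOpen_SS v hv t ht0) (isOpen_TT t ht0)
        ((connectedComponentIn_subset _ _).trans hcov) ⟨_, hvC, hvS⟩ ⟨p, hp, h⟩
      obtain ⟨e, x, hx, hx', rfl⟩ := hq2
      rw [pt_mem_SS v hv t ht0] at hq1
      rcases hq1 with h | h <;> linarith [hx'.1, hx'.2]
  · exact (isPreconnected_SS v hv t ht0).subset_connectedComponentIn hvS hsub

include hv in
lemma totalLength_domain (ht0 : ∀ e, 0 < t e) (ht1 : ∀ e, 2 * t e ≤ Γ.len e) (F : Γ.Point → ℝ)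
    (hN1 : ∀ e, Γ.edgeDeriv F e (t e) = 0 ∧ Γ.edgeDeriv F e (Γ.len e - t e) = 0)
    (hN2 : ∀ e, ∀ x ∈ Ioo 0 (Γ.len e), (x < t e ∨ Γ.len e - t e < x) → Γ.edgeDeriv F e x ≠ 0) :
    Γ.totalLength (Γ.neumannDomain F v) = ∑ᶠ e : Γ.E, 2 * t e := by
  unfold totalLength neumannDomain
  rw [component_eq v hv t ht0 F hN1 hN2]
  apply finsum_congr
  intro e
  have h0 := ht0 e
  have h1 := ht1 e
  have hcl : closure (SS t v) ⊆ (TT t)ᶜ := by
    apply closure_minimal
    · intro p hp hq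
      obtain ⟨e, x, hx, hx', rfl⟩ := hq
      rw [pt_mem_SS v hv t ht0] at hp
      rcases hp with h | h <;> linarith [hx'.1, hx'.2]
    · exact (isOpen_TT t ht0).isClosed_compl
  have hup : {x : ℝ | x ∈ Ioo 0 (Γ.len e) ∧ Γ.pt e x ∈ closure (SS t v)} ⊆
      Ioc 0 (t e) ∪ Ico (Γ.len e - t e) (Γ.len e) := by
    rintro x ⟨hx, hxc⟩
    have h2 := hcl hxc
    rw [mem_compl_iff, pt_mem_TT t ht0] at h2
    by_cases h3 : x ≤ t e
    · exact Or.inl ⟨hx.1, h3⟩
    · right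
      refine ⟨?_, hx.2⟩
      by_contra h4
      exact h2 ⟨not_le.mp h3, not_le.mp h4⟩
  have hlow : Ioo 0 (t e) ∪ Ioo (Γ.len e - t e) (Γ.len e) ⊆
      {x : ℝ | x ∈ Ioo 0 (Γ.len e) ∧ Γ.pt e x ∈ closure (SS t v)} := by
    rintro x (hx | hx)
    · refine ⟨⟨hx.1, by linarith [hx.2]⟩, subset_closure ?_⟩
      rw [pt_mem_SS v hv t ht0]
      exact Or.inl hx.2
    · refine ⟨⟨by linarith [hx.1], hx.2⟩, subset_closure ?_⟩
      rw [pt_mem_SS v hv t ht0]
      exact Or.inr hx.1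
  have hv1 : volume (Ioc 0 (t e) ∪ Ico (Γ.len e - t e) (Γ.len e)) ≤ ENNReal.ofReal (2 * t e) := by
    refine (measure_union_le _ _).trans ?_
    rw [Real.volume_Ioc, Real.volume_Ico, ← ENNReal.ofReal_add (by linarith) (by linarith)]
    apply ENNReal.ofReal_le_ofReal
    linarith
  have hv2 : ENNReal.ofReal (2 * t e) ≤
      volume (Ioo 0 (t e) ∪ Ioo (Γ.len e - t e) (Γ.len e)) := by
    rw [measure_union _ measurableSet_Ioo, Real.volume_Ioo, Real.volume_Ioo,
      ← ENNReal.ofReal_add (by linarith) (by linarith)]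
    · apply ENNReal.ofReal_le_ofReal
      linarith
    · rw [Set.disjoint_left]
      intro x hx hx'
      linarith [hx.2, hx'.1]
  have hfin : volume {x : ℝ | x ∈ Ioo 0 (Γ.len e) ∧ Γ.pt e x ∈ closure (SS t v)} =
      ENNReal.ofReal (2 * t e) :=
    le_antisymm ((measure_mono hup).trans hv1) (hv2.trans (measure_mono hlow))
  rw [hfin, ENNReal.toReal_ofReal (by linarith)]

include hv in
lemma connectedSpace_bouquet : ConnectedSpace Γ.Point := by
  have h1 : (univ : Set Γ.Point) = ⋃₀ ({{Point.vertex v}} ∪ range (fun e : Γ.E => range (Γ.pt e))) := by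
    ext p
    constructor
    · intro _
      rcases point_cases p with ⟨w, rfl⟩ | ⟨e, x, hx, rfl⟩
      · exact ⟨_, Or.inl rfl, by rw [hv w]; rfl⟩
      · exact ⟨_, Or.inr ⟨e, rfl⟩, ⟨x, rfl⟩⟩
    · intro _
      trivial
  have h2 : IsPreconnected (univ : Set Γ.Point) := by
    rw [h1]
    apply isPreconnected_sUnion (Point.vertex v)
    · rintro s (hs | ⟨e, rfl⟩)
      · rw [mem_singleton_iff] at hs
        subst hs
        rfl
      · exact ⟨0, by rw [pt_zero, hv (Γ.src e)]⟩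
    · rintro s (hs | ⟨e, rfl⟩)
      · rw [mem_singleton_iff] at hs
        subst hs
        exact isPreconnected_singleton
      · exact isPreconnected_range (Γ.continuous_pt e)
  exact { isPreconnected_univ := h2, toNonempty := ⟨Point.vertex v⟩ }

end bouquet

end MetricGraph

end Pool.Agent.Lib.MP_ecbb05_mp
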