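import Pool.Agent.Lib.MP_ecbb05_mp.Defs

set_option autoImplicit false

open MeasureTheory Set Filter Topology

namespace Pool.Agent.Lib.MP_ecbb05_mp

namespace MetricGraph

variable (Γ : MetricGraph)

lemma pt_of_mem {e : Γ.E} {x : ℝ} (h : x ∈ Ioo (0 : ℝ) (Γ.len e)) :
    Γ.pt e x = Point.inner e x h := by
  unfold pt
  rw [dif_pos h]

lemma pt_of_le {e : Γ.E} {x : ℝ} (h : x ≤ 0) : Γ.pt e x = Point.vertex (Γ.src e) := by
  unfold pt
  rw [dif_neg (fun h' => absurd h'.1 (not_lt.mpr h)), if_pos h]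

lemma pt_of_ge {e : Γ.E} {x : ℝ} (h : Γ.len e ≤ x) : Γ.pt e x = Point.vertex (Γ.tgt e) := by
  unfold pt
  rw [dif_neg (fun h' => absurd h'.2 (not_lt.mpr h)), if_neg (not_le.mpr ((Γ.len_pos e).trans_le h))]

lemma pt_zero (e : Γ.E) : Γ.pt e 0 = Point.vertex (Γ.src e) := Γ.pt_of_le le_rfl

lemma pt_len (e : Γ.E) : Γ.pt e (Γ.len e) = Point.vertex (Γ.tgt e) := Γ.pt_of_ge le_rfl

lemma continuous_pt (e : Γ.E) : Continuous (Γ.pt e) := by
  rw [continuous_def]
  intro U hU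
  rw [isOpen_iSup_iff] at hU
  exact hU e

lemma isOpen_iff (U : Set Γ.Point) : IsOpen U ↔ ∀ e : Γ.E, IsOpen (Γ.pt e ⁻¹' U) := by
  rw [isOpen_iSup_iff]
  rfl

/-- constants on an interval from a vanishing derivative -/
lemma const_of_deriv_zero {l : ℝ} (hl : 0 < l) {h : ℝ → ℝ}
    (hh : ∀ x ∈ Icc 0 l, HasDerivWithinAt h 0 (Icc 0 l) x) : ∀ x ∈ Icc 0 l, h x = h 0 := by
  intro x hx
  have := Convex.norm_image_sub_le_of_norm_hasDerivWithin_le (f := h) (f' := fun _ => (0 : ℝ))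
    (C := 0) (s := Icc 0 l) (x := 0) (y := x) hh (by simp) (convex_Icc 0 l)
    (left_mem_Icc.mpr hl.le) hx
  rw [zero_mul, norm_le_zero_iff, sub_eq_zero] at this
  exact this

variable {Γ}

lemma edge_sol {κ : ℝ} {F : Γ.Point → ℝ} (hF : Γ.IsEigenfunction κ F) (hκ : 0 < κ) (e : Γ.E) :
    (∀ x ∈ Icc 0 (Γ.len e), F (Γ.pt e x) =
      F (Point.vertex (Γ.src e)) * Real.cos (κ * x) + Γ.edgeDeriv F e 0 / κ * Real.sin (κ * x)) ∧
    (∀ x ∈ Icc 0 (Γ.len e), Γ.edgeDeriv F e x =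
      -κ * F (Point.vertex (Γ.src e)) * Real.sin (κ * x) + Γ.edgeDeriv F e 0 * Real.cos (κ * x)) := by
  have hl := Γ.len_pos e
  set g : ℝ → ℝ := fun y => F (Γ.pt e y) with hg
  set D : ℝ → ℝ := Γ.edgeDeriv F e with hD
  have h1 : ∀ x ∈ Icc 0 (Γ.len e), HasDerivWithinAt g (D x) (Icc 0 (Γ.len e)) x :=
    fun x hx => (hF.1 e x hx).1
  have h2 : ∀ x ∈ Icc 0 (Γ.len e), HasDerivWithinAt D (-(κ ^ 2 * g x)) (Icc 0 (Γ.len e)) x :=
    fun x hx => (hF.1 e x hx).2
  have hc : ∀ x : ℝ, HasDerivAt (fun y => Real.cos (κ * y)) (-(κ * Real.sin (κ * x))) x := by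
    intro x
    exact ((hasDerivAt_id x).const_mul κ).cos.congr_deriv (by simp only [id, mul_one]; ring)
  have hs : ∀ x : ℝ, HasDerivAt (fun y => Real.sin (κ * y)) (κ * Real.cos (κ * x)) x := by
    intro x
    exact ((hasDerivAt_id x).const_mul κ).sin.congr_deriv (by simp only [id, mul_one]; ring)
  have e1 : ∀ x ∈ Icc 0 (Γ.len e),
      g x * Real.cos (κ * x) - D x / κ * Real.sin (κ * x) = g 0 := by
    intro x hx
    have h := const_of_deriv_zero hl
      (h := fun x => g x * Real.cos (κ * x) - D x / κ * Real.sin (κ * x)) (fun y hy => by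
        exact (((h1 y hy).mul (hc y).hasDerivWithinAt).sub
          (((h2 y hy).div_const κ).mul (hs y).hasDerivWithinAt)).congr_deriv (by
            field_simp
            ring)) x hx
    simpa using h
  have e2 : ∀ x ∈ Icc 0 (Γ.len e),
      g x * (κ * Real.sin (κ * x)) + D x * Real.cos (κ * x) = D 0 := by
    intro x hx
    have h := const_of_deriv_zero hl
      (h := fun x => g x * (κ * Real.sin (κ * x)) + D x * Real.cos (κ * x)) (fun y hy => by
        exact (((h1 y hy).mul ((hs y).const_mul κ).hasDerivWithinAt).add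
          ((h2 y hy).mul (hc y).hasDerivWithinAt)).congr_deriv (by ring)) x hx
    simpa using h
  have hg0 : g 0 = F (Point.vertex (Γ.src e)) := by rw [hg]; simp only [pt_zero]
  rw [← hg0]
  constructor
  · intro x hx
    have a1 := e1 x hx
    have a2 := e2 x hx
    have a3 := Real.sin_sq_add_cos_sq (κ * x)
    rw [← a1, ← a2]
    show g x = _
    field_simp
    linear_combination (-κ * g x) * a3
  · intro x hx
    have a1 := e1 x hx
    have a2 := e2 x hx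
    have a3 := Real.sin_sq_add_cos_sq (κ * x)
    rw [← a1, ← a2]
    field_simp
    linear_combination (-D x) * a3

lemma edge_sol_zero {F : Γ.Point → ℝ} (hF : Γ.IsEigenfunction 0 F) (e : Γ.E) :
    (∀ x ∈ Icc 0 (Γ.len e), F (Γ.pt e x) =
      F (Point.vertex (Γ.src e)) + Γ.edgeDeriv F e 0 * x) ∧
    (∀ x ∈ Icc 0 (Γ.len e), Γ.edgeDeriv F e x = Γ.edgeDeriv F e 0) := by
  have hl := Γ.len_pos e
  set g : ℝ → ℝ := fun y => F (Γ.pt e y) with hg
  set D : ℝ → ℝ := Γ.edgeDeriv F e with hD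
  have h1 : ∀ x ∈ Icc 0 (Γ.len e), HasDerivWithinAt g (D x) (Icc 0 (Γ.len e)) x :=
    fun x hx => (hF.1 e x hx).1
  have h2 : ∀ x ∈ Icc 0 (Γ.len e), HasDerivWithinAt D 0 (Icc 0 (Γ.len e)) x := by
    intro x hx
    have := (hF.1 e x hx).2
    simpa using this
  have e2 := const_of_deriv_zero hl h2
  refine ⟨?_, e2⟩
  have hg0 : g 0 = F (Point.vertex (Γ.src e)) := by rw [hg]; simp only [pt_zero]
  rw [← hg0]
  intro x hx
  have h := const_of_deriv_zero hl (h := fun x => g x - D 0 * x) (fun y hy => by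
    exact ((h1 y hy).sub (((hasDerivAt_id y).const_mul (D 0)).hasDerivWithinAt
      (s := Icc 0 (Γ.len e)))).congr_deriv (by rw [e2 y hy]; simp)) x hx
  simp only [mul_zero, sub_zero] at h
  show g x = _
  linear_combination h

/-- A function given by its values at the vertices and its expressions on the edges. -/
def mkFun (Γ : MetricGraph) (c : Γ.V → ℝ) (g : Γ.E → ℝ → ℝ) : Γ.Point → ℝ
  | Point.vertex v => c v
  | Point.inner e x _ => g e x

lemma mkFun_vertex (c : Γ.V → ℝ) (g : Γ.E → ℝ → ℝ) (v : Γ.V) :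
    Γ.mkFun c g (Point.vertex v) = c v := rfl

lemma mkFun_pt (c : Γ.V → ℝ) (g : Γ.E → ℝ → ℝ) (e : Γ.E) (h0 : g e 0 = c (Γ.src e))
    (h1 : g e (Γ.len e) = c (Γ.tgt e)) {x : ℝ} (hx : x ∈ Icc 0 (Γ.len e)) :
    Γ.mkFun c g (Γ.pt e x) = g e x := by
  rcases eq_or_lt_of_le hx.1 with h | h
  · rw [← h, pt_zero, mkFun_vertex, h0]
  · rcases eq_or_lt_of_le hx.2 with h' | h'
    · rw [h', pt_len, mkFun_vertex, h1]
    · rw [Γ.pt_of_mem ⟨h, h'⟩]
      rfl

lemma edgeDeriv_eq {F : Γ.Point → ℝ} {g : ℝ → ℝ} {e : Γ.E}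
    (hFg : ∀ x ∈ Icc 0 (Γ.len e), F (Γ.pt e x) = g x) {g' : ℝ} {x : ℝ}
    (hx : x ∈ Icc 0 (Γ.len e)) (hg : HasDerivAt g g' x) : Γ.edgeDeriv F e x = g' := by
  unfold edgeDeriv
  have h1 : HasDerivWithinAt (fun y : ℝ => F (Γ.pt e y)) g' (Icc 0 (Γ.len e)) x :=
    hg.hasDerivWithinAt.congr (fun y hy => hFg y hy) (hFg x hx)
  exact h1.derivWithin (uniqueDiffOn_Icc (Γ.len_pos e) x hx)

lemma isEigen_edge {F : Γ.Point → ℝ} {κ : ℝ} {g g' : ℝ → ℝ} {e : Γ.E}
    (hFg : ∀ x ∈ Icc 0 (Γ.len e), F (Γ.pt e x) = g x)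
    (hg : ∀ x, HasDerivAt g (g' x) x) (hg' : ∀ x, HasDerivAt g' (-(κ ^ 2 * g x)) x) :
    ∀ x ∈ Icc 0 (Γ.len e),
    HasDerivWithinAt (fun y : ℝ => F (Γ.pt e y)) (Γ.edgeDeriv F e x) (Icc 0 (Γ.len e)) x ∧
    HasDerivWithinAt (Γ.edgeDeriv F e) (-(κ ^ 2 * F (Γ.pt e x))) (Icc 0 (Γ.len e)) x := by
  intro x hx
  constructor
  · rw [edgeDeriv_eq hFg hx (hg x)]
    exact (hg x).hasDerivWithinAt.congr (fun y hy => hFg y hy) (hFg x hx)
  · rw [hFg x hx]
    exact (hg' x).hasDerivWithinAt.congr (fun y hy => edgeDeriv_eq hFg hy (hg y))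
      (edgeDeriv_eq hFg hx (hg x))

/-- a linear combination of `cos (κ x)` and `sin (κ x)` -/
lemma hasDerivAt_comb (κ A B x : ℝ) :
    HasDerivAt (fun y => A * Real.cos (κ * y) + B * Real.sin (κ * y))
      (-(κ * A) * Real.sin (κ * x) + κ * B * Real.cos (κ * x)) x := by
  have hc : HasDerivAt (fun y => Real.cos (κ * y)) (-(κ * Real.sin (κ * x))) x := by
    exact ((hasDerivAt_id x).const_mul κ).cos.congr_deriv (by simp only [id, mul_one]; ring)
  have hs : HasDerivAt (fun y => Real.sin (κ * y)) (κ * Real.cos (κ * x)) x := by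
    exact ((hasDerivAt_id x).const_mul κ).sin.congr_deriv (by simp only [id, mul_one]; ring)
  exact ((hc.const_mul A).add (hs.const_mul B)).congr_deriv (by ring)

lemma hasDerivAt_comb' (κ A B x : ℝ) :
    HasDerivAt (fun y => -(κ * A) * Real.sin (κ * y) + κ * B * Real.cos (κ * y))
      (-(κ ^ 2 * (A * Real.cos (κ * x) + B * Real.sin (κ * x)))) x := by
  have h := hasDerivAt_comb κ (κ * B) (-(κ * A)) x
  have e1 : (fun y => -(κ * A) * Real.sin (κ * y) + κ * B * Real.cos (κ * y)) =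
      fun y => κ * B * Real.cos (κ * y) + -(κ * A) * Real.sin (κ * y) := by
    funext y
    ring
  rw [e1]
  exact h.congr_deriv (by ring)

end MetricGraph

end Pool.Agent.Lib.MP_ecbb05_mp
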