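import Mathlib

set_option autoImplicit false

open Set

namespace Pool.Agent.Lib.MP_ecbb05_mp

/-- An unbounded locally finite set of nonnegative reals containing `0` is enumerated by a strictly
increasing sequence. -/
lemma exists_enum (S : Set ℝ) (h0 : (0 : ℝ) ∈ S) (hnn : ∀ x ∈ S, 0 ≤ x)
    (hfin : ∀ R : ℝ, (S ∩ Icc 0 R).Finite) (hinf : ∀ R : ℝ, ∃ x ∈ S, R < x) :
    ∃ k : ℕ → ℝ, StrictMono k ∧ range k = S := by
  classical
  let _ : LocallyFiniteOrder S := LocallyFiniteOrder.ofFiniteIcc (fun x y => by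
    refine Set.Finite.of_finite_image (f := Subtype.val) ?_ Subtype.val_injective.injOn
    refine (hfin y).subset ?_
    rintro _ ⟨z, hz, rfl⟩
    exact ⟨z.2, hnn _ z.2, hz.2⟩)
  let _ : SuccOrder S := LinearLocallyFiniteOrder.succOrder S
  let _ : PredOrder S := LinearLocallyFiniteOrder.predOrder S
  let _ : OrderBot S := { bot := ⟨0, h0⟩, bot_le := fun x => hnn _ x.2 }
  have : NoMaxOrder S := ⟨fun x => by
    obtain ⟨y, hy, hxy⟩ := hinf x
    exact ⟨⟨y, hy⟩, hxy⟩⟩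
  let e : S ≃o ℕ := orderIsoNatOfLinearSuccPredArch
  refine ⟨fun n => (e.symm n : ℝ), ?_, ?_⟩
  · intro m n hmn
    have : e.symm m < e.symm n := e.symm.strictMono hmn
    exact this
  · ext x
    constructor
    · rintro ⟨n, rfl⟩
      exact (e.symm n).2
    · intro hx
      exact ⟨e ⟨x, hx⟩, by simp⟩

/-- zeros of `sin (κ L)` -/
lemma finite_sin_zero {L : ℝ} (hL : 0 < L) (R : ℝ) :
    ({κ : ℝ | Real.sin (κ * L) = 0} ∩ Icc 0 R).Finite := by
  refine ((Set.finite_Icc (0 : ℤ) ⌊R * L / Real.pi⌋).image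
    (fun n : ℤ => (n : ℝ) * Real.pi / L)).subset ?_
  rintro κ ⟨h1, h2, h3⟩
  obtain ⟨n, hn⟩ := Real.sin_eq_zero_iff.mp h1
  have hpi := Real.pi_pos
  refine ⟨n, ⟨?_, ?_⟩, ?_⟩
  · have : (0 : ℝ) ≤ n * Real.pi := by rw [hn]; positivity
    have : (0 : ℝ) ≤ n := nonneg_of_mul_nonneg_left this hpi
    exact_mod_cast this
  · rw [Int.le_floor, le_div_iff₀ hpi, hn]
    exact mul_le_mul_of_nonneg_right h3 hL.le
  · simp only
    rw [hn]
    field_simp

end Pool.Agent.Lib.MP_ecbb05_mp
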