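import Pool.Agent.Lib.MP_ecbb05_mp.Domain
import Pool.Agent.Lib.MP_ecbb05_mp.Enum

set_option autoImplicit false

open MeasureTheory Set Filter Topology

namespace Pool.Agent.Lib.MP_ecbb05_mp

namespace MetricGraph

variable {a b : ℝ} {ha : 0 < a} {hb : 0 < b}


/-- the vertex -/
abbrev v8 : (figureEight a b ha hb).V := ()

lemma kirch_iff (F : (figureEight a b ha hb).Point → ℝ) :
    (∀ v : (figureEight a b ha hb).V, ∑ᶠ e ∈ {e : (figureEight a b ha hb).E | (figureEight a b ha hb).src e = v}, (figureEight a b ha hb).edgeDeriv F e 0 +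
      ∑ᶠ e ∈ {e : (figureEight a b ha hb).E | (figureEight a b ha hb).tgt e = v}, -((figureEight a b ha hb).edgeDeriv F e ((figureEight a b ha hb).len e)) = 0) ↔
    (figureEight a b ha hb).edgeDeriv F false 0 + (figureEight a b ha hb).edgeDeriv F true 0 -
      (figureEight a b ha hb).edgeDeriv F false a - (figureEight a b ha hb).edgeDeriv F true b = 0 := by
  have h1 : ∀ v : (figureEight a b ha hb).V, {e : (figureEight a b ha hb).E | (figureEight a b ha hb).src e = v} = univ := by
    intro v
    ext e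
    simp only [mem_ofPred_eq, mem_univ, iff_true]
    exact Subsingleton.elim (α := Unit) _ _
  have h2 : ∀ v : (figureEight a b ha hb).V, {e : (figureEight a b ha hb).E | (figureEight a b ha hb).tgt e = v} = univ := by
    intro v
    ext e
    simp only [mem_ofPred_eq, mem_univ, iff_true]
    exact Subsingleton.elim (α := Unit) _ _
  have key : ∀ g : Bool → ℝ, ∑ᶠ e ∈ (univ : Set Bool), g e = g false + g true := by
    intro g
    rw [finsum_mem_univ, finsum_eq_sum_of_fintype, Fintype.sum_bool, add_comm]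
  have h3 : ∀ g : (figureEight a b ha hb).E → ℝ, ∑ᶠ e ∈ (univ : Set (figureEight a b ha hb).E), g e = g false + g true := key
  constructor
  · intro h
    have := h v8
    rw [h1 v8, h2 v8, h3, h3] at this
    have e1 : (figureEight a b ha hb).len false = a := rfl
    have e2 : (figureEight a b ha hb).len true = b := rfl
    rw [e1, e2] at this
    linear_combination this
  · intro h v
    rw [h1, h2, h3, h3]
    have e1 : (figureEight a b ha hb).len false = a := rfl
    have e2 : (figureEight a b ha hb).len true = b := rfl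
    rw [e1, e2]
    linear_combination h

lemma deg8 (v : (figureEight a b ha hb).V) : (figureEight a b ha hb).deg v = 4 := by
  have h1 : {e : (figureEight a b ha hb).E | (figureEight a b ha hb).src e = v} = univ := by
    ext e
    simp only [mem_ofPred_eq, mem_univ, iff_true]
    exact Subsingleton.elim (α := Unit) _ _
  have h2 : {e : (figureEight a b ha hb).E | (figureEight a b ha hb).tgt e = v} = univ := by
    ext e
    simp only [mem_ofPred_eq, mem_univ, iff_true]
    exact Subsingleton.elim (α := Unit) _ _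
  unfold deg
  rw [h1, h2, Set.ncard_univ]
  have : Nat.card (figureEight a b ha hb).E = 2 := by
    show Nat.card Bool = 2
    simp
  rw [this]

lemma standard8 : (figureEight a b ha hb).IsStandard := by
  refine ⟨connectedSpace_bouquet (Γ := figureEight a b ha hb) () (fun w => Subsingleton.elim (α := Unit) _ _), ?_⟩
  intro v
  right
  rw [deg8]
  norm_num

/-- half-angle sine -/
noncomputable def ss (κ l : ℝ) : ℝ := Real.sin (κ * l / 2)
/-- half-angle cosine -/
noncomputable def tt (κ l : ℝ) : ℝ := Real.cos (κ * l / 2)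

lemma ss_tt (κ l : ℝ) : ss κ l ^ 2 + tt κ l ^ 2 = 1 := Real.sin_sq_add_cos_sq _

lemma sin_full (κ l : ℝ) : Real.sin (κ * l) = 2 * ss κ l * tt κ l := by
  rw [ss, tt, ← Real.sin_two_mul]
  congr 1
  ring

lemma cos_full (κ l : ℝ) : Real.cos (κ * l) = 1 - 2 * ss κ l ^ 2 := by
  have : Real.cos (κ * l) = Real.cos (2 * (κ * l / 2)) := by
    congr 1
    ring
  rw [this, Real.cos_two_mul]
  have := ss_tt κ l
  rw [ss, tt] at *
  linarith

/-- The equations satisfied by the coefficients of an eigenfunction. -/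
def Eqs (κ a b c B0 B1 : ℝ) : Prop :=
  ss κ a * (c * ss κ a - B0 * tt κ a) = 0 ∧ ss κ b * (c * ss κ b - B1 * tt κ b) = 0 ∧
  ss κ a * (B0 * ss κ a + c * tt κ a) + ss κ b * (B1 * ss κ b + c * tt κ b) = 0

lemma eqs_of_eigen {κ : ℝ} (hκ : 0 < κ) {F : (figureEight a b ha hb).Point → ℝ} (hF : (figureEight a b ha hb).IsEigenfunction κ F) :
    Eqs κ a b (F (Point.vertex ())) ((figureEight a b ha hb).edgeDeriv F false 0 / κ)
      ((figureEight a b ha hb).edgeDeriv F true 0 / κ) := by
  have hf := edge_sol hF hκ false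
  have ht := edge_sol hF hκ true
  have e1 : (figureEight a b ha hb).len false = a := rfl
  have e2 : (figureEight a b ha hb).len true = b := rfl
  have s1 : (figureEight a b ha hb).src false = () := rfl
  have s2 : (figureEight a b ha hb).src true = () := rfl
  have m1 : a ∈ Icc (0 : ℝ) ((figureEight a b ha hb).len false) := ⟨ha.le, le_refl a⟩
  have m2 : b ∈ Icc (0 : ℝ) ((figureEight a b ha hb).len true) := ⟨hb.le, le_refl b⟩
  have f1 := hf.1 a m1
  have f2 := hf.2 a m1
  have g1 := ht.1 b m2
  have g2 := ht.2 b m2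
  have p1 : (figureEight a b ha hb).pt false a = Point.vertex () := (figureEight a b ha hb).pt_len false
  have p2 : (figureEight a b ha hb).pt true b = Point.vertex () := (figureEight a b ha hb).pt_len true
  rw [p1, s1, sin_full, cos_full] at f1
  rw [s1, sin_full, cos_full] at f2
  rw [p2, s2, sin_full, cos_full] at g1
  rw [s2, sin_full, cos_full] at g2
  have hk := (kirch_iff F).mp hF.2
  set c := F (Point.vertex ())
  set D0 := (figureEight a b ha hb).edgeDeriv F false 0
  set D1 := (figureEight a b ha hb).edgeDeriv F true 0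
  refine ⟨?_, ?_, ?_⟩
  · linear_combination (1 / 2 : ℝ) * f1
  · linear_combination (1 / 2 : ℝ) * g1
  · rw [f2, g2] at hk
    field_simp
    linear_combination (1 / 2 : ℝ) * hk

/-- An eigenfunction with prescribed coefficients. -/
noncomputable def mk8 (a b : ℝ) (ha : 0 < a) (hb : 0 < b) (κ c B0 B1 : ℝ) :
    (figureEight a b ha hb).Point → ℝ :=
  (figureEight a b ha hb).mkFun (fun _ => c)
    (fun e x => c * Real.cos (κ * x) + (cond e B1 B0) * Real.sin (κ * x))

lemma mk8_pt {κ c B0 B1 : ℝ} (h : Eqs κ a b c B0 B1) (e : (figureEight a b ha hb).E) {x : ℝ}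
    (hx : x ∈ Icc 0 ((figureEight a b ha hb).len e)) :
    mk8 a b ha hb κ c B0 B1 ((figureEight a b ha hb).pt e x) =
      c * Real.cos (κ * x) + (cond e B1 B0) * Real.sin (κ * x) := by
  unfold mk8
  apply mkFun_pt
  · simp
  · cases e
    · show c * Real.cos (κ * a) + B0 * Real.sin (κ * a) = c
      rw [sin_full, cos_full]
      linear_combination (-2 : ℝ) * h.1
    · show c * Real.cos (κ * b) + B1 * Real.sin (κ * b) = c
      rw [sin_full, cos_full]
      linear_combination (-2 : ℝ) * h.2.1
  · exact hx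

lemma mk8_deriv {κ c B0 B1 : ℝ} (h : Eqs κ a b c B0 B1) (e : (figureEight a b ha hb).E) {x : ℝ}
    (hx : x ∈ Icc 0 ((figureEight a b ha hb).len e)) :
    (figureEight a b ha hb).edgeDeriv (mk8 a b ha hb κ c B0 B1) e x =
      -(κ * c) * Real.sin (κ * x) + κ * (cond e B1 B0) * Real.cos (κ * x) :=
  edgeDeriv_eq (g := fun y => c * Real.cos (κ * y) + (cond e B1 B0) * Real.sin (κ * y))
    (fun y hy => mk8_pt h e hy) hx (hasDerivAt_comb κ c _ x)

lemma mk8_eigen {κ c B0 B1 : ℝ} (h : Eqs κ a b c B0 B1) :
    (figureEight a b ha hb).IsEigenfunction κ (mk8 a b ha hb κ c B0 B1) := by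
  refine ⟨?_, ?_⟩
  · intro e x hx
    exact isEigen_edge (g := fun y => c * Real.cos (κ * y) + (cond e B1 B0) * Real.sin (κ * y))
      (g' := fun y => -(κ * c) * Real.sin (κ * y) + κ * (cond e B1 B0) * Real.cos (κ * y))
      (fun y hy => mk8_pt h e hy) (hasDerivAt_comb κ c _) (hasDerivAt_comb' κ c _) x hx
  · rw [kirch_iff]
    have m1 : a ∈ Icc (0 : ℝ) ((figureEight a b ha hb).len false) := ⟨ha.le, le_refl a⟩
    have m2 : b ∈ Icc (0 : ℝ) ((figureEight a b ha hb).len true) := ⟨hb.le, le_refl b⟩
    have m3 : (0 : ℝ) ∈ Icc (0 : ℝ) ((figureEight a b ha hb).len false) := ⟨le_rfl, ((figureEight a b ha hb).len_pos false).le⟩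
    have m4 : (0 : ℝ) ∈ Icc (0 : ℝ) ((figureEight a b ha hb).len true) := ⟨le_rfl, ((figureEight a b ha hb).len_pos true).le⟩
    rw [mk8_deriv h false m3, mk8_deriv h true m4, mk8_deriv h false m1, mk8_deriv h true m2]
    simp only [mul_zero, Real.sin_zero, Real.cos_zero, cond_true, cond_false]
    rw [sin_full, cos_full, sin_full, cos_full]
    linear_combination (2 * κ) * h.2.2

/-- eigenfunctions are determined by their coefficients -/
lemma eigen_ext {κ : ℝ} (hκ : 0 < κ) {F G : (figureEight a b ha hb).Point → ℝ} (hF : (figureEight a b ha hb).IsEigenfunction κ F)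
    (hG : (figureEight a b ha hb).IsEigenfunction κ G) (r : ℝ) (h0 : F (Point.vertex ()) = r * G (Point.vertex ()))
    (h1 : (figureEight a b ha hb).edgeDeriv F false 0 = r * (figureEight a b ha hb).edgeDeriv G false 0)
    (h2 : (figureEight a b ha hb).edgeDeriv F true 0 = r * (figureEight a b ha hb).edgeDeriv G true 0) : F = r • G := by
  funext p
  rw [Pi.smul_apply, smul_eq_mul]
  rcases point_cases p with ⟨w, rfl⟩ | ⟨e, x, hx, rfl⟩
  · exact h0
  · have hx' : x ∈ Icc 0 ((figureEight a b ha hb).len e) := Ioo_subset_Icc_self hx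
    rw [(edge_sol hF hκ e).1 x hx', (edge_sol hG hκ e).1 x hx']
    have hs : (figureEight a b ha hb).src e = () := rfl
    rw [hs, h0]
    cases e
    · rw [h1]; ring
    · rw [h2]; ring

lemma eigen_zero_const {F : (figureEight a b ha hb).Point → ℝ} (hF : (figureEight a b ha hb).IsEigenfunction 0 F) :
    (∀ p, F p = F (Point.vertex ())) ∧ ∀ e, (figureEight a b ha hb).edgeDeriv F e 0 = 0 := by
  have hD : ∀ e, (figureEight a b ha hb).edgeDeriv F e 0 = 0 := by
    intro e
    have h := (edge_sol_zero hF e).1 ((figureEight a b ha hb).len e) ⟨((figureEight a b ha hb).len_pos e).le, le_rfl⟩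
    rw [pt_len] at h
    have hs : (figureEight a b ha hb).src e = () := rfl
    have ht : (figureEight a b ha hb).tgt e = () := rfl
    rw [hs, ht] at h
    have h2 : (figureEight a b ha hb).edgeDeriv F e 0 * (figureEight a b ha hb).len e = 0 := by linarith
    rcases mul_eq_zero.mp h2 with h3 | h3
    · exact h3
    · exact absurd h3 ((figureEight a b ha hb).len_pos e).ne'
  refine ⟨?_, hD⟩
  intro p
  rcases point_cases p with ⟨w, rfl⟩ | ⟨e, x, hx, rfl⟩
  · rfl
  · have hx' : x ∈ Icc 0 ((figureEight a b ha hb).len e) := Ioo_subset_Icc_self hx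
    rw [(edge_sol_zero hF e).1 x hx', hD e]
    have hs : (figureEight a b ha hb).src e = () := rfl
    rw [hs]
    ring

lemma const_eigen (c : ℝ) : (figureEight a b ha hb).IsEigenfunction 0 (fun _ => c) := by
  have h1 : ∀ e : (figureEight a b ha hb).E, ∀ x ∈ Icc 0 ((figureEight a b ha hb).len e), (figureEight a b ha hb).edgeDeriv (fun _ => c) e x = 0 := by
    intro e x hx
    exact edgeDeriv_eq (F := fun _ => c) (g := fun _ => c) (fun _ _ => rfl) hx (hasDerivAt_const x c)
  refine ⟨?_, ?_⟩
  · intro e x hx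
    have := isEigen_edge (F := fun _ => c) (κ := 0) (g := fun _ => c) (g' := fun _ => 0) (e := e)
      (fun _ _ => rfl) (fun y => hasDerivAt_const y c)
      (fun y => (hasDerivAt_const y (0 : ℝ)).congr_deriv (by ring)) x hx
    exact this
  · rw [kirch_iff]
    have m1 : a ∈ Icc (0 : ℝ) ((figureEight a b ha hb).len false) := ⟨ha.le, le_refl a⟩
    have m2 : b ∈ Icc (0 : ℝ) ((figureEight a b ha hb).len true) := ⟨hb.le, le_refl b⟩
    have m3 : (0 : ℝ) ∈ Icc (0 : ℝ) ((figureEight a b ha hb).len false) := ⟨le_rfl, ((figureEight a b ha hb).len_pos false).le⟩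
    have m4 : (0 : ℝ) ∈ Icc (0 : ℝ) ((figureEight a b ha hb).len true) := ⟨le_rfl, ((figureEight a b ha hb).len_pos true).le⟩
    rw [h1 _ _ m1, h1 _ _ m2, h1 _ _ m3, h1 _ _ m4]
    ring

end MetricGraph

end Pool.Agent.Lib.MP_ecbb05_mp
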