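import Pool.Agent.Lib.MP_ecbb05_mp.Spectral

set_option autoImplicit false

open MeasureTheory Set Filter Topology

namespace Pool.Agent.Lib.MP_ecbb05_mp

namespace MetricGraph

variable {a b : ℝ} {ha : 0 < a} {hb : 0 < b}


/-- all eigenfunctions for a simple eigenvalue are multiples of the listed one -/
lemma mem_span_simple {k : ℕ → ℝ} {f : ℕ → (figureEight a b ha hb).Point → ℝ} (hl : (figureEight a b ha hb).IsSpectralList k f) {n : ℕ}
    (hn : ∀ m : ℕ, k m = k n → m = n) {F : (figureEight a b ha hb).Point → ℝ}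
    (hF : (figureEight a b ha hb).IsEigenfunction (k n) F) : ∃ r : ℝ, F = r • f n := by
  have h1 := hl.spans (k n) (hl.nonneg n) F hF
  have h2 : {G : (figureEight a b ha hb).Point → ℝ | ∃ m : ℕ, k m = k n ∧ f m = G} = {f n} := by
    ext G
    constructor
    · rintro ⟨m, hm, rfl⟩
      rw [hn m hm]
      rfl
    · rintro rfl
      exact ⟨n, rfl, rfl⟩
  rw [h2, Submodule.mem_span_singleton] at h1
  obtain ⟨r, hr⟩ := h1
  exact ⟨r, hr.symm⟩

lemma f_ne_zero {k : ℕ → ℝ} {f : ℕ → (figureEight a b ha hb).Point → ℝ} (hl : (figureEight a b ha hb).IsSpectralList k f) (n : ℕ) :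
    f n ≠ 0 :=
  (hl.linearIndependent (k n)).ne_zero ⟨n, rfl⟩

lemma cos_ne_of {κ c B l : ℝ} (hc : c ≠ 0) (hs : ss κ l ≠ 0)
    (h : ss κ l * (c * ss κ l - B * tt κ l) = 0) : tt κ l ≠ 0 ∧ B = c * ss κ l / tt κ l := by
  have h1 : c * ss κ l - B * tt κ l = 0 := by
    rcases mul_eq_zero.mp h with h | h
    · exact absurd h hs
    · exact h
  have h2 : tt κ l ≠ 0 := by
    intro h3
    rw [h3, mul_zero, sub_zero] at h1
    rcases mul_eq_zero.mp h1 with h | h
    · exact hc h
    · exact hs h
  refine ⟨h2, ?_⟩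
  field_simp
  linarith

/-- derivative of a symmetric eigenfunction on a loop -/
lemma deriv_formula {κ : ℝ} (hκ : 0 < κ) {F : (figureEight a b ha hb).Point → ℝ} (hF : (figureEight a b ha hb).IsEigenfunction κ F)
    (e : (figureEight a b ha hb).E) (ht : tt κ ((figureEight a b ha hb).len e) ≠ 0)
    (hB : (figureEight a b ha hb).edgeDeriv F e 0 / κ =
      F (Point.vertex ()) * ss κ ((figureEight a b ha hb).len e) / tt κ ((figureEight a b ha hb).len e)) :
    ∀ x ∈ Icc 0 ((figureEight a b ha hb).len e), (figureEight a b ha hb).edgeDeriv F e x =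
      κ * F (Point.vertex ()) / tt κ ((figureEight a b ha hb).len e) * Real.sin (κ * ((figureEight a b ha hb).len e / 2 - x)) := by
  intro x hx
  rw [(edge_sol hF hκ e).2 x hx]
  have hs : (figureEight a b ha hb).src e = () := rfl
  rw [hs]
  have h1 : (figureEight a b ha hb).edgeDeriv F e 0 = κ * (F (Point.vertex ()) * ss κ ((figureEight a b ha hb).len e) /
      tt κ ((figureEight a b ha hb).len e)) := by
    rw [← hB]
    field_simp
  rw [h1]
  have h2 : Real.sin (κ * ((figureEight a b ha hb).len e / 2 - x)) =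
      ss κ ((figureEight a b ha hb).len e) * Real.cos (κ * x) - tt κ ((figureEight a b ha hb).len e) * Real.sin (κ * x) := by
    rw [ss, tt, ← Real.sin_sub]
    congr 1
    ring
  rw [h2]
  field_simp
  ring

/-- the data of a generic eigenfunction -/
lemma generic_data {k : ℕ → ℝ} {f : ℕ → (figureEight a b ha hb).Point → ℝ} (hl : (figureEight a b ha hb).IsSpectralList k f) {n : ℕ}
    (hg : (figureEight a b ha hb).IsGeneric k f n) :
    0 < k n ∧ ss (k n) a ≠ 0 ∧ ss (k n) b ≠ 0 ∧ f n (Point.vertex ()) ≠ 0 := by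
  obtain ⟨h1, h2, h3, h4⟩ := hg
  have hc : f n (Point.vertex ()) ≠ 0 := h2 ()
  have hκ : 0 < k n := by
    rcases eq_or_lt_of_le (hl.nonneg n) with h0 | h0
    · exfalso
      have hE := hl.isEigenfunction n
      rw [← h0] at hE
      refine h3 false ?_ ((eigen_zero_const hE).2 false)
      rw [deg8]
      norm_num
    · exact h0
  refine ⟨hκ, ?_, ?_, hc⟩
  · intro h0
    have hE : Eqs (k n) a b 0 1 0 := by
      refine ⟨?_, ?_, ?_⟩ <;> simp [h0]
    obtain ⟨r, hr⟩ := mem_span_simple hl h1 (mk8_eigen (ha := ha) (hb := hb) hE)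
    have e1 := congrFun hr (Point.vertex ())
    rw [Pi.smul_apply, smul_eq_mul] at e1
    have e2 : mk8 a b ha hb (k n) 0 1 0 (Point.vertex ()) = 0 := rfl
    rw [e2] at e1
    have hr0 : r = 0 := by
      rcases mul_eq_zero.mp e1.symm with h | h
      · exact h
      · exact absurd h hc
    have m3 : (0 : ℝ) ∈ Icc (0 : ℝ) ((figureEight a b ha hb).len false) := ⟨le_rfl, ((figureEight a b ha hb).len_pos false).le⟩
    have e3 := mk8_deriv (ha := ha) (hb := hb) hE false m3
    rw [hr, hr0, zero_smul] at e3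
    have e4 : (figureEight a b ha hb).edgeDeriv (0 : (figureEight a b ha hb).Point → ℝ) false 0 = 0 :=
      edgeDeriv_eq (F := 0) (g := fun _ => 0) (fun _ _ => rfl) m3 (hasDerivAt_const _ _)
    rw [e4] at e3
    simp only [cond_false, mul_zero, neg_zero, Real.sin_zero, Real.cos_zero, mul_one,
      zero_add] at e3
    linarith
  · intro h0
    have hE : Eqs (k n) a b 0 0 1 := by
      refine ⟨?_, ?_, ?_⟩ <;> simp [h0]
    obtain ⟨r, hr⟩ := mem_span_simple hl h1 (mk8_eigen (ha := ha) (hb := hb) hE)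
    have e1 := congrFun hr (Point.vertex ())
    rw [Pi.smul_apply, smul_eq_mul] at e1
    have e2 : mk8 a b ha hb (k n) 0 0 1 (Point.vertex ()) = 0 := rfl
    rw [e2] at e1
    have hr0 : r = 0 := by
      rcases mul_eq_zero.mp e1.symm with h | h
      · exact h
      · exact absurd h hc
    have m3 : (0 : ℝ) ∈ Icc (0 : ℝ) ((figureEight a b ha hb).len true) := ⟨le_rfl, ((figureEight a b ha hb).len_pos true).le⟩
    have e3 := mk8_deriv (ha := ha) (hb := hb) hE true m3
    rw [hr, hr0, zero_smul] at e3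
    have e4 : (figureEight a b ha hb).edgeDeriv (0 : (figureEight a b ha hb).Point → ℝ) true 0 = 0 :=
      edgeDeriv_eq (F := 0) (g := fun _ => 0) (fun _ _ => rfl) m3 (hasDerivAt_const _ _)
    rw [e4] at e3
    simp only [cond_true, mul_zero, neg_zero, Real.sin_zero, Real.cos_zero, mul_one,
      zero_add] at e3
    linarith

/-- residue of `κ l / 2` modulo `π` -/
lemma residue {κ l : ℝ} (hκ : 0 < κ) (hl : 0 < l) (hs : ss κ l ≠ 0) :
    ∃ (y : ℝ) (j : ℕ), 0 < y ∧ y < Real.pi ∧ κ * l / 2 = y + Real.pi * j := by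
  have hpi := Real.pi_pos
  set j := ⌊κ * l / 2 / Real.pi⌋₊ with hj
  have h0 : 0 ≤ κ * l / 2 / Real.pi := by positivity
  have h1 : (j : ℝ) ≤ κ * l / 2 / Real.pi := Nat.floor_le h0
  have h2 : κ * l / 2 / Real.pi < j + 1 := Nat.lt_floor_add_one _
  rw [le_div_iff₀ hpi] at h1
  rw [div_lt_iff₀ hpi] at h2
  refine ⟨κ * l / 2 - Real.pi * j, j, ?_, by linarith, by ring⟩
  rcases eq_or_lt_of_le h1 with h3 | h3
  · exfalso
    apply hs
    rw [ss, ← h3]
    exact Real.sin_nat_mul_pi j
  · linarith

theorem capacity_generic {k : ℕ → ℝ} {f : ℕ → (figureEight a b ha hb).Point → ℝ} (hl : (figureEight a b ha hb).IsSpectralList k f)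
    {n : ℕ} (hg : (figureEight a b ha hb).IsGeneric k f n) (v : (figureEight a b ha hb).V) : (figureEight a b ha hb).capacity v k f n = 2 := by
  obtain ⟨hκ, hs0, hs1, hc⟩ := generic_data hl hg
  set κ := k n with hκdef
  set c := f n (Point.vertex ()) with hcdef
  have hpi := Real.pi_pos
  have hE := hl.isEigenfunction n
  rw [← hκdef] at hE
  have hq := eqs_of_eigen hκ hE
  rw [← hcdef] at hq
  obtain ⟨q1, q2, q3⟩ := hq
  obtain ⟨t0, b0⟩ := cos_ne_of hc hs0 q1
  obtain ⟨t1, b1⟩ := cos_ne_of hc hs1 q2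
  -- the secular equation
  have hsum : ss κ (a + b) = 0 := by
    rw [ss_add]
    rw [b0, b1] at q3
    have g1 := ss_tt κ a
    have g2 := ss_tt κ b
    have e1 : c * ss κ a / tt κ a * ss κ a + c * tt κ a = c / tt κ a := by
      field_simp
      exact g1
    have e2 : c * ss κ b / tt κ b * ss κ b + c * tt κ b = c / tt κ b := by
      field_simp
      exact g2
    rw [e1, e2] at q3
    field_simp at q3
    have : c * (ss κ a * tt κ b + tt κ a * ss κ b) = 0 := by linear_combination q3
    rcases mul_eq_zero.mp this with h | h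
    · exact absurd h hc
    · exact h
  obtain ⟨y0, j0, y0pos, y0lt, hy0⟩ := residue hκ ha hs0
  obtain ⟨y1, j1, y1pos, y1lt, hy1⟩ := residue hκ hb hs1
  have hysum : y0 + y1 = Real.pi := by
    obtain ⟨M, hM⟩ := Real.sin_eq_zero_iff.mp hsum
    have h1 : y0 + y1 = Real.pi * ((M - j0 - j1 : ℤ) : ℝ) := by
      push_cast
      linarith
    have h2 : 0 < ((M - j0 - j1 : ℤ) : ℝ) := by
      by_contra h
      have : Real.pi * ((M - j0 - j1 : ℤ) : ℝ) ≤ 0 :=
        mul_nonpos_of_nonneg_of_nonpos hpi.le (not_lt.mp h)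
      linarith
    have h3 : ((M - j0 - j1 : ℤ) : ℝ) < 2 := by
      by_contra h
      have : Real.pi * 2 ≤ Real.pi * ((M - j0 - j1 : ℤ) : ℝ) :=
        mul_le_mul_of_nonneg_left (not_lt.mp h) hpi.le
      linarith
    have h4 : M - j0 - j1 = 1 := by
      have h5 : 0 < M - j0 - j1 := by exact_mod_cast h2
      have h6 : M - j0 - j1 < 2 := by exact_mod_cast h3
      omega
    rw [h1, h4]
    norm_num
  -- the Neumann domain
  have hder : ∀ e : (figureEight a b ha hb).E, ∃ C : ℝ, C ≠ 0 ∧ ∀ x ∈ Icc 0 ((figureEight a b ha hb).len e),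
      (figureEight a b ha hb).edgeDeriv (f n) e x = C * Real.sin (κ * ((figureEight a b ha hb).len e / 2 - x)) := by
    intro e
    cases e
    · refine ⟨κ * c / tt κ a, by positivity, ?_⟩
      exact deriv_formula hκ hE false t0 b0
    · refine ⟨κ * c / tt κ b, by positivity, ?_⟩
      exact deriv_formula hκ hE true t1 b1
  have hy : ∀ e : (figureEight a b ha hb).E, ∃ (j : ℕ), 0 < cond e y1 y0 ∧ cond e y1 y0 < Real.pi ∧
      κ * (figureEight a b ha hb).len e / 2 = cond e y1 y0 + Real.pi * j := by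
    intro e
    cases e
    · exact ⟨j0, y0pos, y0lt, hy0⟩
    · exact ⟨j1, y1pos, y1lt, hy1⟩
  have hlen : (figureEight a b ha hb).totalLength ((figureEight a b ha hb).neumannDomain (f n) v) =
      ∑ᶠ e : (figureEight a b ha hb).E, 2 * (cond e y1 y0 / κ) := by
    apply totalLength_domain (Γ := figureEight a b ha hb) v (fun w => Subsingleton.elim (α := Unit) _ _)
      (fun e : (figureEight a b ha hb).E => cond e y1 y0 / κ)
    · intro e
      obtain ⟨j, hj1, hj2, hj3⟩ := hy e
      exact div_pos hj1 hκ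
    · intro e
      obtain ⟨j, hj1, hj2, hj3⟩ := hy e
      rw [mul_div_assoc', div_le_iff₀ hκ]
      have : 0 ≤ Real.pi * j := by positivity
      nlinarith
    · intro e
      obtain ⟨j, hj1, hj2, hj3⟩ := hy e
      obtain ⟨C, hC, hD⟩ := hder e
      have hlp := (figureEight a b ha hb).len_pos e
      have hle : cond e y1 y0 / κ ≤ (figureEight a b ha hb).len e := by
        rw [div_le_iff₀ hκ]
        have : 0 ≤ Real.pi * j := by positivity
        have : 0 < κ * (figureEight a b ha hb).len e := by positivity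
        nlinarith
      have hpos : 0 < cond e y1 y0 / κ := div_pos hj1 hκ
      constructor
      · rw [hD _ ⟨hpos.le, hle⟩]
        have : κ * ((figureEight a b ha hb).len e / 2 - cond e y1 y0 / κ) = j * Real.pi := by
          field_simp
          linarith
        rw [this, Real.sin_nat_mul_pi, mul_zero]
      · rw [hD _ ⟨by linarith, by linarith⟩]
        have : κ * ((figureEight a b ha hb).len e / 2 - ((figureEight a b ha hb).len e - cond e y1 y0 / κ)) = -(j * Real.pi) := by
          field_simp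
          linarith
        rw [this, Real.sin_neg, Real.sin_nat_mul_pi, neg_zero, mul_zero]
    · intro e x hx hx'
      obtain ⟨j, hj1, hj2, hj3⟩ := hy e
      obtain ⟨C, hC, hD⟩ := hder e
      rw [hD x (Ioo_subset_Icc_self hx)]
      apply mul_ne_zero hC
      have hkx : 0 < κ * x := mul_pos hκ hx.1
      rcases hx' with h | h
      · rw [lt_div_iff₀ hκ] at h
        have e1 : κ * ((figureEight a b ha hb).len e / 2 - x) = (cond e y1 y0 - κ * x) + j * Real.pi := by
          linarith
        rw [e1, Real.sin_add_nat_mul_pi]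
        apply mul_ne_zero
        · exact pow_ne_zero _ (by norm_num)
        · exact (Real.sin_pos_of_pos_of_lt_pi (by linarith) (by linarith)).ne'
      · have h' : κ * ((figureEight a b ha hb).len e - x) < cond e y1 y0 := by
          have : (figureEight a b ha hb).len e - x < cond e y1 y0 / κ := by linarith
          rw [lt_div_iff₀ hκ] at this
          linarith
        have h'' : 0 < κ * ((figureEight a b ha hb).len e - x) := mul_pos hκ (by linarith [hx.2])
        have e1 : κ * ((figureEight a b ha hb).len e / 2 - x) =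
            -((cond e y1 y0 - κ * ((figureEight a b ha hb).len e - x)) + j * Real.pi) := by
          linarith
        rw [e1, Real.sin_neg, Real.sin_add_nat_mul_pi]
        apply neg_ne_zero.mpr
        apply mul_ne_zero
        · exact pow_ne_zero _ (by norm_num)
        · exact (Real.sin_pos_of_pos_of_lt_pi (by linarith) (by linarith)).ne'
  have hfs : ∑ᶠ e : (figureEight a b ha hb).E, 2 * (cond e y1 y0 / κ) = 2 * (y0 / κ) + 2 * (y1 / κ) := by
    have : ∑ᶠ e : Bool, 2 * (cond e y1 y0 / κ) = 2 * (y0 / κ) + 2 * (y1 / κ) := by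
      rw [finsum_eq_sum_of_fintype, Fintype.sum_bool, add_comm]
      rfl
    exact this
  unfold capacity
  rw [← hκdef, hlen, hfs]
  field_simp
  linarith

/-- The frequencies `2 π m / (a + b)` belong to generic eigenfunctions. -/
lemma generic_kap (h : LinearIndependent ℚ (figureEight a b ha hb).len) {k : ℕ → ℝ} {f : ℕ → (figureEight a b ha hb).Point → ℝ}
    (hl : (figureEight a b ha hb).IsSpectralList k f) {m : ℕ} (hm : 1 ≤ m) :
    ∃ n : ℕ, k n = kap a b m ∧ (figureEight a b ha hb).IsGeneric k f n := by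
  have hκ := kap_pos (ha := ha) (hb := hb) hm
  have hE := mk8_eigen (ha := ha) (hb := hb) (eqs_kap h hm)
  set F := mk8 a b ha hb (kap a b m) 1 (ss (kap a b m) a / tt (kap a b m) a)
      (ss (kap a b m) b / tt (kap a b m) b) with hF
  have hF0 : F ≠ 0 := mk8_ne_zero one_ne_zero
  have hsp := hl.spans _ hκ.le F hE
  have hex : ∃ n : ℕ, k n = kap a b m := by
    by_contra hc
    push Not at hc
    have : {G : (figureEight a b ha hb).Point → ℝ | ∃ n : ℕ, k n = kap a b m ∧ f n = G} = ∅ := by
      ext G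
      simp only [mem_ofPred_eq, mem_empty_iff_false, iff_false]
      rintro ⟨n, hn, -⟩
      exact hc n hn
    rw [this, Submodule.span_empty, Submodule.mem_bot] at hsp
    exact hF0 hsp
  obtain ⟨n, hn⟩ := hex
  refine ⟨n, hn, ?_⟩
  have hfE := hl.isEigenfunction n
  rw [hn] at hfE
  have hmul : ∀ n' : ℕ, k n' = kap a b m → ∃ r : ℝ, r ≠ 0 ∧ f n' = r • F := by
    intro n' hn'
    have hfE' := hl.isEigenfunction n'
    rw [hn'] at hfE'
    obtain ⟨r, hr⟩ := one_dim h hκ.le hfE' hE hF0
    refine ⟨r, ?_, hr⟩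
    rintro rfl
    rw [zero_smul] at hr
    exact f_ne_zero hl n' hr
  obtain ⟨r, hr0, hr⟩ := hmul n hn
  have hsimple : ∀ m' : ℕ, k m' = k n → m' = n := by
    intro m' hm'
    obtain ⟨r', hr0', hr'⟩ := hmul m' (hm'.trans hn)
    have hli := hl.linearIndependent (k n)
    have e : r • f m' = r' • f n := by
      rw [hr, hr', smul_smul, smul_smul, mul_comm]
    have := hli.eq_of_smul_apply_eq_smul_apply r r' ⟨m', hm'⟩ ⟨n, rfl⟩ hr0 e
    exact congrArg Subtype.val this
  have hc : f n (Point.vertex ()) = r := by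
    rw [hr, Pi.smul_apply, smul_eq_mul]
    have : F (Point.vertex ()) = 1 := rfl
    rw [this, mul_one]
  have hc0 : f n (Point.vertex ()) ≠ 0 := by rw [hc]; exact hr0
  obtain ⟨s0, s1, -, -⟩ := nz2 h hm
  have hq := eqs_of_eigen hκ hfE
  obtain ⟨q1, q2, q3⟩ := hq
  obtain ⟨t0, b0⟩ := cos_ne_of hc0 s0 q1
  obtain ⟨t1, b1⟩ := cos_ne_of hc0 s1 q2
  have hder : ∀ e : (figureEight a b ha hb).E, (figureEight a b ha hb).edgeDeriv (f n) e 0 ≠ 0 ∧
      (figureEight a b ha hb).edgeDeriv (f n) e ((figureEight a b ha hb).len e) ≠ 0 := by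
    intro e
    have hte : tt (kap a b m) ((figureEight a b ha hb).len e) ≠ 0 := by
      cases e
      · exact t0
      · exact t1
    have hse : ss (kap a b m) ((figureEight a b ha hb).len e) ≠ 0 := by
      cases e
      · exact s0
      · exact s1
    have hBe : (figureEight a b ha hb).edgeDeriv (f n) e 0 / kap a b m =
        f n (Point.vertex ()) * ss (kap a b m) ((figureEight a b ha hb).len e) / tt (kap a b m) ((figureEight a b ha hb).len e) := by
      cases e
      · exact b0
      · exact b1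
    have hd := deriv_formula hκ hfE e hte hBe
    have hlp := (figureEight a b ha hb).len_pos e
    constructor
    · rw [hd 0 ⟨le_rfl, hlp.le⟩]
      have : Real.sin (kap a b m * ((figureEight a b ha hb).len e / 2 - 0)) = ss (kap a b m) ((figureEight a b ha hb).len e) := by
        rw [ss]
        congr 1
        ring
      rw [this]
      exact mul_ne_zero (div_ne_zero (mul_ne_zero hκ.ne' hc0) hte) hse
    · rw [hd _ ⟨hlp.le, le_rfl⟩]
      have : Real.sin (kap a b m * ((figureEight a b ha hb).len e / 2 - (figureEight a b ha hb).len e)) =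
          -ss (kap a b m) ((figureEight a b ha hb).len e) := by
        rw [ss, ← Real.sin_neg]
        congr 1
        ring
      rw [this]
      exact mul_ne_zero (div_ne_zero (mul_ne_zero hκ.ne' hc0) hte) (neg_ne_zero.mpr hse)
  refine ⟨hsimple, ?_, fun e _ => (hder e).1, fun e _ => (hder e).2⟩
  intro v
  exact hc0

theorem infinite_generic (h : LinearIndependent ℚ (figureEight a b ha hb).len) {k : ℕ → ℝ}
    {f : ℕ → (figureEight a b ha hb).Point → ℝ} (hl : (figureEight a b ha hb).IsSpectralList k f) :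
    {n | (figureEight a b ha hb).IsGeneric k f n}.Infinite := by
  have h1 : ∀ m : ℕ, ∃ n : ℕ, k n = kap a b (m + 1) ∧ (figureEight a b ha hb).IsGeneric k f n :=
    fun m => generic_kap h hl (by omega)
  choose g hg using h1
  refine Set.infinite_of_injective_forall_mem (f := g) ?_ (fun m => (hg m).2)
  intro m m' hmm
  have e1 := (hg m).1
  have e2 := (hg m').1
  rw [hmm, e2] at e1
  unfold kap at e1
  have hpi := Real.pi_pos
  field_simp at e1
  have e3 : ((m' + 1 : ℕ) : ℝ) = ((m + 1 : ℕ) : ℝ) := by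
    have hpos : (0 : ℝ) < 2 * Real.pi := by positivity
    have := e1
    nlinarith
  have e4 : m' + 1 = m + 1 := by exact_mod_cast e3
  omega

/-! ### Densities -/

lemma hasDensity_self {G A : Set ℕ} (hG : G.Infinite) (hA : A = G) : HasDensity G A 1 := by
  unfold HasDensity
  subst hA
  obtain ⟨n₀, hn₀⟩ := hG.nonempty
  apply tendsto_const_nhds.congr'
  filter_upwards [eventually_ge_atTop n₀] with N hN
  have hfin : {n ∈ A | n ≤ N}.Finite := (Set.finite_Iic N).subset (fun n hn => hn.2)
  have e1 : A ∩ {n ∈ A | n ≤ N} = {n ∈ A | n ≤ N} := by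
    ext n
    simp only [mem_inter_iff, mem_ofPred_eq]
    tauto
  rw [e1, div_self]
  have : 0 < {n ∈ A | n ≤ N}.ncard := by
    rw [Set.ncard_pos hfin]
    exact ⟨n₀, hn₀, hN⟩
  exact_mod_cast this.ne'

lemma hasDensity_unique {G A : Set ℕ} {d d' : ℝ} (h : HasDensity G A d) (h' : HasDensity G A d') :
    d = d' := tendsto_nhds_unique h h'

end MetricGraph

end Pool.Agent.Lib.MP_ecbb05_mp
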