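import Pool.Agent.Lib.MP_ecbb05_mp.Generic

set_option autoImplicit false

open MeasureTheory Set Filter Topology

namespace Pool.Agent.Lib.MP_ecbb05_mp

namespace MetricGraph

variable {a b : ℝ} {ha : 0 < a} {hb : 0 < b}


theorem law_atom (h : LinearIndependent ℚ (figureEight a b ha hb).len) {k : ℕ → ℝ}
    {f : ℕ → (figureEight a b ha hb).Point → ℝ} (hl : (figureEight a b ha hb).IsSpectralList k f) (v : (figureEight a b ha hb).V) {dens p : ℝ → ℝ}
    (hlaw : (figureEight a b ha hb).IsCapacityLaw v k f dens p) : p 2 = 1 := by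
  obtain ⟨hint, hfin, hd⟩ := hlaw
  have hG := infinite_generic h hl
  have h1 : ∀ ε : ℝ, 0 < ε →
      (∫ x in (2 - ε)..(2 + ε), dens x) + ∑ᶠ x ∈ Ioo (2 - ε) (2 + ε), p x = 1 := by
    intro ε hε
    have e1 := hd (2 - ε) (2 + ε) (by linarith)
    have e2 : {n | (figureEight a b ha hb).IsGeneric k f n ∧ (figureEight a b ha hb).capacity v k f n ∈ Ioo (2 - ε) (2 + ε)} =
        {n | (figureEight a b ha hb).IsGeneric k f n} := by
      ext n
      simp only [mem_ofPred_eq]
      constructor
      · exact fun h => h.1
      · intro h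
        refine ⟨h, ?_⟩
        rw [capacity_generic hl h v]
        exact ⟨by linarith, by linarith⟩
    exact hasDensity_unique e1 (hasDensity_self hG e2)
  have hint' : ∀ x y : ℝ, IntervalIntegrable dens volume x y := fun x y =>
    hint.intervalIntegrable
  have h2 : Tendsto (fun ε : ℝ => ∫ x in (2 - ε)..(2 + ε), dens x) (𝓝[>] 0) (𝓝 0) := by
    have hc := intervalIntegral.continuous_primitive (μ := volume) hint' 0
    have hc2 : Continuous (fun ε : ℝ => (∫ x in (0 : ℝ)..(2 + ε), dens x) -
        ∫ x in (0 : ℝ)..(2 - ε), dens x) :=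
      (hc.comp (continuous_const.add continuous_id)).sub
        (hc.comp (continuous_const.sub continuous_id))
    have e : (fun ε : ℝ => ∫ x in (2 - ε)..(2 + ε), dens x) = fun ε : ℝ =>
        (∫ x in (0 : ℝ)..(2 + ε), dens x) - ∫ x in (0 : ℝ)..(2 - ε), dens x := by
      funext ε
      exact (intervalIntegral.integral_interval_sub_left (hint' _ _) (hint' _ _)).symm
    rw [e]
    have h3 := hc2.tendsto 0
    simp only [add_zero, sub_zero, sub_self] at h3
    exact h3.mono_left nhdsWithin_le_nhds
  have h3 : ∀ᶠ ε : ℝ in 𝓝[>] 0, ∑ᶠ x ∈ Ioo (2 - ε) (2 + ε), p x = p 2 := by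
    have h4 : ∀ᶠ ε : ℝ in 𝓝[>] 0, ∀ x ∈ Function.support p, x ≠ 2 → ε < |x - 2| := by
      rw [hfin.eventually_all]
      intro x _
      by_cases hx : x = 2
      · filter_upwards with ε h
        exact absurd hx h
      · have : 0 < |x - 2| := abs_pos.mpr (sub_ne_zero.mpr hx)
        filter_upwards [Ioo_mem_nhdsGT this] with ε hε _
        exact hε.2
    filter_upwards [h4, self_mem_nhdsWithin] with ε hε hpos
    have hpos' : 0 < ε := hpos
    have e : ∑ᶠ x ∈ Ioo (2 - ε) (2 + ε), p x = ∑ᶠ x ∈ ({2} : Set ℝ), p x := by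
      apply finsum_mem_inter_support_eq
      ext x
      simp only [mem_inter_iff, mem_Ioo, mem_singleton_iff]
      constructor
      · rintro ⟨hx1, hx2⟩
        refine ⟨?_, hx2⟩
        by_contra hx
        have h5 := hε x hx2 hx
        have h6 : |x - 2| < ε := by
          rw [abs_lt]
          constructor <;> linarith [hx1.1, hx1.2]
        linarith
      · rintro ⟨rfl, hx2⟩
        exact ⟨⟨by linarith, by linarith⟩, hx2⟩
    rw [e, finsum_mem_singleton]
  have h4 : Tendsto (fun ε : ℝ => (∫ x in (2 - ε)..(2 + ε), dens x) +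
      ∑ᶠ x ∈ Ioo (2 - ε) (2 + ε), p x) (𝓝[>] 0) (𝓝 (0 + p 2)) := by
    refine h2.add ?_
    exact tendsto_const_nhds.congr' (h3.mono (fun ε hε => hε.symm))
  have h5 : Tendsto (fun ε : ℝ => (∫ x in (2 - ε)..(2 + ε), dens x) +
      ∑ᶠ x ∈ Ioo (2 - ε) (2 + ε), p x) (𝓝[>] 0) (𝓝 1) := by
    refine tendsto_const_nhds.congr' ?_
    filter_upwards [self_mem_nhdsWithin] with ε hε
    exact (h1 ε hε).symm
  have := tendsto_nhds_unique h4 h5
  linarith

/-- The pair `dens = 0`, `p = δ_2` is a law of the capacity. -/
theorem law_exists (h : LinearIndependent ℚ (figureEight a b ha hb).len) {k : ℕ → ℝ}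
    {f : ℕ → (figureEight a b ha hb).Point → ℝ} (hl : (figureEight a b ha hb).IsSpectralList k f) (v : (figureEight a b ha hb).V) :
    (figureEight a b ha hb).IsCapacityLaw v k f (fun _ => 0) (Set.indicator {2} (fun _ => 1)) := by
  have hG := infinite_generic h hl
  have hsup : Function.support (Set.indicator {(2 : ℝ)} (fun _ => (1 : ℝ))) = {2} := by
    ext x
    simp
  refine ⟨integrable_zero _ _ _, ?_, ?_⟩
  · rw [hsup]
    exact finite_singleton 2
  · intro x y hxy
    rw [intervalIntegral.integral_zero, zero_add]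
    by_cases h2 : (2 : ℝ) ∈ Ioo x y
    · have e : ∑ᶠ z ∈ Ioo x y, Set.indicator {(2 : ℝ)} (fun _ => (1 : ℝ)) z = 1 := by
        rw [finsum_mem_inter_support_eq _ _ ({(2 : ℝ)} : Set ℝ) (by
          rw [hsup]
          ext z
          simp only [mem_inter_iff, mem_singleton_iff]
          constructor
          · rintro ⟨-, rfl⟩; exact ⟨rfl, rfl⟩
          · rintro ⟨rfl, -⟩; exact ⟨h2, rfl⟩), finsum_mem_singleton]
        simp
      rw [e]
      apply hasDensity_self hG
      ext n
      simp only [mem_ofPred_eq]
      constructor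
      · exact fun h => h.1
      · intro h
        refine ⟨h, ?_⟩
        rw [capacity_generic hl h v]
        exact h2
    · have e : ∑ᶠ z ∈ Ioo x y, Set.indicator {(2 : ℝ)} (fun _ => (1 : ℝ)) z = 0 := by
        rw [finsum_mem_inter_support_eq _ _ (∅ : Set ℝ) (by
          rw [hsup]
          ext z
          simp only [mem_inter_iff, mem_singleton_iff, mem_empty_iff_false, false_and, iff_false,
            not_and]
          rintro hz rfl
          exact h2 hz), finsum_mem_empty]
      rw [e]
      unfold HasDensity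
      have e2 : {n | (figureEight a b ha hb).IsGeneric k f n ∧ (figureEight a b ha hb).capacity v k f n ∈ Ioo x y} = ∅ := by
        ext n
        simp only [mem_ofPred_eq, mem_empty_iff_false, iff_false, not_and]
        intro h h3
        rw [capacity_generic hl h v] at h3
        exact h2 h3
      rw [e2]
      simp only [empty_inter, ncard_empty, Nat.cast_zero, zero_div]
      exact tendsto_const_nhds

/-- rationally independent lengths exist -/
theorem exists_lengths : ∃ (a b : ℝ) (ha : 0 < a) (hb : 0 < b),
    LinearIndependent ℚ (figureEight a b ha hb).len := by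
  refine ⟨1, Real.sqrt 2, one_pos, by positivity, ?_⟩
  have h : LinearIndependent ℚ (fun e : Bool => cond e (Real.sqrt 2) (1 : ℝ)) := by
    rw [Fintype.linearIndependent_iff]
    intro g hg
    rw [Fintype.sum_bool] at hg
    simp only [cond_true, cond_false] at hg
    rw [Rat.smul_def, Rat.smul_def, mul_one] at hg
    have hirr := irrational_sqrt_two
    have h1 : g true = 0 := by
      by_contra h
      apply hirr
      refine ⟨-(g false) / g true, ?_⟩
      push_cast
      have : ((g true : ℚ) : ℝ) ≠ 0 := by exact_mod_cast h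
      field_simp
      linarith
    rw [h1] at hg
    have h2 : g false = 0 := by
      have : ((g false : ℚ) : ℝ) = 0 := by
        simpa using hg
      exact_mod_cast this
    intro i
    cases i
    · exact h2
    · exact h1
  exact h

end MetricGraph

end Pool.Agent.Lib.MP_ecbb05_mp
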