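import Pool.Agent.Lib.MP_ecbb05_mp.Eight

set_option autoImplicit false

open MeasureTheory Set Filter Topology

namespace Pool.Agent.Lib.MP_ecbb05_mp

namespace MetricGraph

variable {a b : ℝ} {ha : 0 < a} {hb : 0 < b}


lemma no_rel (h : LinearIndependent ℚ (figureEight a b ha hb).len) (p q : ℤ) (hpq : (p : ℝ) * a + q * b = 0) :
    p = 0 ∧ q = 0 := by
  have h' : LinearIndependent ℚ (fun e : Bool => cond e b a) := h
  have h2 := Fintype.linearIndependent_iff.mp h' (fun e => cond e (q : ℚ) (p : ℚ)) (by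
    rw [Fintype.sum_bool]
    simp only [cond_true, cond_false]
    rw [Rat.smul_def, Rat.smul_def]
    push_cast
    linarith)
  have h3 := h2 false
  have h4 := h2 true
  simp only [cond_true, cond_false] at h3 h4
  exact ⟨by exact_mod_cast h3, by exact_mod_cast h4⟩

lemma nz1 (h : LinearIndependent ℚ (figureEight a b ha hb).len) {κ : ℝ} (hκ : 0 < κ) :
    ¬ (ss κ a = 0 ∧ ss κ b = 0) := by
  rintro ⟨h1, h2⟩
  obtain ⟨m, hm⟩ := Real.sin_eq_zero_iff.mp h1
  obtain ⟨n, hn⟩ := Real.sin_eq_zero_iff.mp h2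
  have hpi := Real.pi_pos
  have e1 : (n : ℝ) * a + ((-m : ℤ) : ℝ) * b = 0 := by
    have e2 : κ * ((n : ℝ) * a - m * b) = 0 := by
      have : κ * a = 2 * (m * Real.pi) := by rw [hm]; ring
      have h3 : κ * b = 2 * (n * Real.pi) := by rw [hn]; ring
      calc κ * ((n : ℝ) * a - m * b) = n * (κ * a) - m * (κ * b) := by ring
        _ = 0 := by rw [this, h3]; ring
    rcases mul_eq_zero.mp e2 with h3 | h3
    · exact absurd h3 hκ.ne'
    · push_cast
      linarith
  obtain ⟨hn0, hm0⟩ := no_rel h n (-m) e1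
  have hm1 : m = 0 := by omega
  rw [hm1] at hm
  have : κ * a / 2 = 0 := by rw [← hm]; simp
  have h5 : 0 < κ * a / 2 := by positivity
  linarith

/-- the frequencies of the generic eigenfunctions -/
noncomputable def kap (a b : ℝ) (m : ℕ) : ℝ := 2 * Real.pi * m / (a + b)

include ha hb in
lemma kap_pos {m : ℕ} (hm : 1 ≤ m) : 0 < kap a b m := by
  unfold kap
  have : (0 : ℝ) < m := by exact_mod_cast hm
  have := Real.pi_pos
  positivity

include ha hb in
lemma kap_sum (m : ℕ) : kap a b m * (a + b) = 2 * Real.pi * m := by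
  unfold kap
  field_simp

lemma nz2 (h : LinearIndependent ℚ (figureEight a b ha hb).len) {m : ℕ} (hm : 1 ≤ m) :
    ss (kap a b m) a ≠ 0 ∧ ss (kap a b m) b ≠ 0 ∧ tt (kap a b m) a ≠ 0 ∧ tt (kap a b m) b ≠ 0 := by
  set κ := kap a b m with hκdef
  have hκ : 0 < κ := kap_pos (ha := ha) (hb := hb) hm
  have hsum : κ * a + κ * b = 2 * Real.pi * m := by
    rw [← mul_add]
    exact kap_sum (ha := ha) (hb := hb) m
  have hpi := Real.pi_pos
  have hm' : (0 : ℝ) < m := by exact_mod_cast hm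
  -- from `κ a = π r` one gets a relation
  have key : ∀ r : ℤ, κ * a = Real.pi * r → r = 0 ∧ (2 * (m : ℤ) - r) = 0 := by
    intro r hr
    have hr' : κ * b = Real.pi * (2 * m - r) := by linarith
    have e : ((2 * (m : ℤ) - r : ℤ) : ℝ) * a + ((-r : ℤ) : ℝ) * b = 0 := by
      push_cast
      have e2 : κ * ((2 * (m : ℝ) - r) * a + (-r) * b) = 0 := by
        calc κ * ((2 * (m : ℝ) - r) * a + (-r) * b) =
            (2 * (m : ℝ) - r) * (κ * a) - r * (κ * b) := by ring
          _ = 0 := by rw [hr, hr']; ring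
      rcases mul_eq_zero.mp e2 with h3 | h3
      · exact absurd h3 hκ.ne'
      · exact h3
    obtain ⟨h1, h2⟩ := no_rel h _ _ e
    exact ⟨by omega, h1⟩
  have no : ∀ r : ℤ, κ * a = Real.pi * r → False := by
    intro r hr
    obtain ⟨h1, h2⟩ := key r hr
    omega
  have no' : ∀ r : ℤ, κ * b = Real.pi * r → False := by
    intro r hr
    refine no (2 * m - r) ?_
    push_cast
    linarith
  refine ⟨?_, ?_, ?_, ?_⟩
  · intro h0
    obtain ⟨n, hn⟩ := Real.sin_eq_zero_iff.mp h0
    exact no (2 * n) (by push_cast; linarith)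
  · intro h0
    obtain ⟨n, hn⟩ := Real.sin_eq_zero_iff.mp h0
    exact no' (2 * n) (by push_cast; linarith)
  · intro h0
    obtain ⟨n, hn⟩ := Real.cos_eq_zero_iff.mp h0
    exact no (2 * n + 1) (by push_cast; linarith)
  · intro h0
    obtain ⟨n, hn⟩ := Real.cos_eq_zero_iff.mp h0
    exact no' (2 * n + 1) (by push_cast; linarith)

/-- both half-angle sines nonzero -/
lemma eqs_both {κ c B0 B1 : ℝ} (h : Eqs κ a b c B0 B1) (h0 : ss κ a ≠ 0) (h1 : ss κ b ≠ 0) :
    ∃ A A1 : ℝ, c = A * tt κ a ∧ B0 = A * ss κ a ∧ c = A1 * tt κ b ∧ B1 = A1 * ss κ b ∧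
      ss κ a * A + ss κ b * A1 = 0 := by
  obtain ⟨e1, e2, e3⟩ := h
  have f1 : c * ss κ a - B0 * tt κ a = 0 := by
    rcases mul_eq_zero.mp e1 with h | h
    · exact absurd h h0
    · exact h
  have f2 : c * ss κ b - B1 * tt κ b = 0 := by
    rcases mul_eq_zero.mp e2 with h | h
    · exact absurd h h1
    · exact h
  have g1 := ss_tt κ a
  have g2 := ss_tt κ b
  refine ⟨c * tt κ a + B0 * ss κ a, c * tt κ b + B1 * ss κ b, ?_, ?_, ?_, ?_, ?_⟩
  · linear_combination (-c) * g1 + ss κ a * f1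
  · linear_combination (-B0) * g1 - tt κ a * f1
  · linear_combination (-c) * g2 + ss κ b * f2
  · linear_combination (-B1) * g2 - tt κ b * f2
  · linear_combination e3

lemma eqs_left {κ c B0 B1 : ℝ} (h : Eqs κ a b c B0 B1) (h0 : ss κ a = 0) (h1 : ss κ b ≠ 0) :
    c = 0 ∧ B1 = 0 := by
  obtain ⟨e1, e2, e3⟩ := h
  have f2 : c * ss κ b - B1 * tt κ b = 0 := by
    rcases mul_eq_zero.mp e2 with h | h
    · exact absurd h h1
    · exact h
  rw [h0, zero_mul, zero_add] at e3
  have f3 : B1 * ss κ b + c * tt κ b = 0 := by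
    rcases mul_eq_zero.mp e3 with h | h
    · exact absurd h h1
    · exact h
  have g2 := ss_tt κ b
  constructor
  · linear_combination (-c) * g2 + ss κ b * f2 + tt κ b * f3
  · linear_combination (-B1) * g2 - tt κ b * f2 + ss κ b * f3

lemma eqs_right {κ c B0 B1 : ℝ} (h : Eqs κ a b c B0 B1) (h0 : ss κ b = 0) (h1 : ss κ a ≠ 0) :
    c = 0 ∧ B0 = 0 := by
  have : Eqs κ b a c B1 B0 := ⟨h.2.1, h.1, by linarith [h.2.2]⟩
  exact eqs_left this h0 h1

lemma eqs_prop {κ c B0 B1 c' B0' B1' : ℝ} (hnz : ¬ (ss κ a = 0 ∧ ss κ b = 0))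
    (h : Eqs κ a b c B0 B1) (h' : Eqs κ a b c' B0' B1')
    (hne : ¬ (c' = 0 ∧ B0' = 0 ∧ B1' = 0)) :
    ∃ r : ℝ, c = r * c' ∧ B0 = r * B0' ∧ B1 = r * B1' := by
  by_cases h0 : ss κ a = 0
  · have h1 : ss κ b ≠ 0 := fun h2 => hnz ⟨h0, h2⟩
    obtain ⟨x1, x2⟩ := eqs_left h h0 h1
    obtain ⟨y1, y2⟩ := eqs_left h' h0 h1
    have : B0' ≠ 0 := fun h2 => hne ⟨y1, h2, y2⟩
    refine ⟨B0 / B0', ?_, ?_, ?_⟩
    · rw [x1, y1]; ring
    · field_simp
    · rw [x2, y2]; ring
  · by_cases h1 : ss κ b = 0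
    · obtain ⟨x1, x2⟩ := eqs_right h h1 h0
      obtain ⟨y1, y2⟩ := eqs_right h' h1 h0
      have : B1' ≠ 0 := fun h2 => hne ⟨y1, y2, h2⟩
      refine ⟨B1 / B1', ?_, ?_, ?_⟩
      · rw [x1, y1]; ring
      · rw [x2, y2]; ring
      · field_simp
    · obtain ⟨A, A1, e1, e2, e3, e4, e5⟩ := eqs_both h h0 h1
      obtain ⟨A', A1', f1, f2, f3, f4, f5⟩ := eqs_both h' h0 h1
      have hA' : A' ≠ 0 := by
        intro h2
        rw [h2, mul_zero, zero_add] at f5
        have h3 : A1' = 0 := by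
          rcases mul_eq_zero.mp f5 with h | h
          · exact absurd h h1
          · exact h
        apply hne
        refine ⟨?_, ?_, ?_⟩
        · rw [f1, h2, zero_mul]
        · rw [f2, h2, zero_mul]
        · rw [f4, h3, zero_mul]
      have hA1 : A1 = A / A' * A1' := by
        have : ss κ b * (A1 - A / A' * A1') = 0 := by
          have e6 : ss κ b * A1 = -(ss κ a * A) := by linarith
          have e7 : ss κ b * A1' = -(ss κ a * A') := by linarith
          calc ss κ b * (A1 - A / A' * A1') = ss κ b * A1 - A / A' * (ss κ b * A1') := by ring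
            _ = 0 := by rw [e6, e7]; field_simp; ring
        rcases mul_eq_zero.mp this with h | h
        · exact absurd h h1
        · linarith
      refine ⟨A / A', ?_, ?_, ?_⟩
      · rw [e1, f1]; field_simp
      · rw [e2, f2]; field_simp
      · rw [e4, f4, hA1]; ring

lemma one_dim (h : LinearIndependent ℚ (figureEight a b ha hb).len) {κ : ℝ} (hκ : 0 ≤ κ) {F G : (figureEight a b ha hb).Point → ℝ}
    (hF : (figureEight a b ha hb).IsEigenfunction κ F) (hG : (figureEight a b ha hb).IsEigenfunction κ G) (hG0 : G ≠ 0) :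
    ∃ r : ℝ, F = r • G := by
  rcases eq_or_lt_of_le hκ with h0 | h0
  · subst h0
    obtain ⟨f1, -⟩ := eigen_zero_const hF
    obtain ⟨g1, -⟩ := eigen_zero_const hG
    have hg : G (Point.vertex ()) ≠ 0 := by
      intro h2
      apply hG0
      funext p
      rw [g1 p, h2]
      rfl
    refine ⟨F (Point.vertex ()) / G (Point.vertex ()), ?_⟩
    funext p
    rw [Pi.smul_apply, smul_eq_mul, f1 p, g1 p]
    field_simp
  · have hne : ¬ (G (Point.vertex ()) = 0 ∧ (figureEight a b ha hb).edgeDeriv G false 0 / κ = 0 ∧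
        (figureEight a b ha hb).edgeDeriv G true 0 / κ = 0) := by
      rintro ⟨h1, h2, h3⟩
      apply hG0
      have h2' : (figureEight a b ha hb).edgeDeriv G false 0 = 0 := by
        rcases div_eq_zero_iff.mp h2 with h | h
        · exact h
        · exact absurd h h0.ne'
      have h3' : (figureEight a b ha hb).edgeDeriv G true 0 = 0 := by
        rcases div_eq_zero_iff.mp h3 with h | h
        · exact h
        · exact absurd h h0.ne'
      have := eigen_ext h0 hG hG 0 (by rw [h1]; ring) (by rw [h2']; ring) (by rw [h3']; ring)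
      rw [this, zero_smul]
    obtain ⟨r, r1, r2, r3⟩ := eqs_prop (nz1 h h0) (eqs_of_eigen h0 hF) (eqs_of_eigen h0 hG) hne
    refine ⟨r, eigen_ext h0 hF hG r r1 ?_ ?_⟩
    · field_simp at r2
      exact r2
    · field_simp at r3
      exact r3

/-- the set of frequencies -/
def freq (a b : ℝ) (ha : 0 < a) (hb : 0 < b) : Set ℝ :=
  {κ | 0 ≤ κ ∧ ∃ F : (figureEight a b ha hb).Point → ℝ,
    (figureEight a b ha hb).IsEigenfunction κ F ∧ F ≠ 0}

lemma ss_add (κ : ℝ) : ss κ (a + b) = ss κ a * tt κ b + tt κ a * ss κ b := by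
  rw [ss, ss, ss, tt, tt, ← Real.sin_add]
  congr 1
  ring

lemma sum_zero {κ c B0 B1 : ℝ} (h : Eqs κ a b c B0 B1) (h0 : ss κ a ≠ 0) (h1 : ss κ b ≠ 0)
    (hne : ¬ (c = 0 ∧ B0 = 0 ∧ B1 = 0)) : ss κ (a + b) = 0 := by
  obtain ⟨A, A1, e1, e2, e3, e4, e5⟩ := eqs_both h h0 h1
  have hA : A ≠ 0 := by
    intro h2
    rw [h2, mul_zero, zero_add] at e5
    have h3 : A1 = 0 := by
      rcases mul_eq_zero.mp e5 with h | h
      · exact absurd h h1
      · exact h
    apply hne
    refine ⟨?_, ?_, ?_⟩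
    · rw [e1, h2, zero_mul]
    · rw [e2, h2, zero_mul]
    · rw [e4, h3, zero_mul]
  have : A * ss κ (a + b) = 0 := by
    rw [ss_add]
    have e6 : A * tt κ a = A1 * tt κ b := by rw [← e1, ← e3]
    linear_combination tt κ b * e5 + ss κ b * e6
  rcases mul_eq_zero.mp this with h | h
  · exact absurd h hA
  · exact h

lemma coeff_ne {κ : ℝ} (h0 : 0 < κ) {G : (figureEight a b ha hb).Point → ℝ} (hG : (figureEight a b ha hb).IsEigenfunction κ G)
    (hG0 : G ≠ 0) : ¬ (G (Point.vertex ()) = 0 ∧ (figureEight a b ha hb).edgeDeriv G false 0 / κ = 0 ∧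
        (figureEight a b ha hb).edgeDeriv G true 0 / κ = 0) := by
  rintro ⟨h1, h2, h3⟩
  apply hG0
  have h2' : (figureEight a b ha hb).edgeDeriv G false 0 = 0 := by
    rcases div_eq_zero_iff.mp h2 with h | h
    · exact h
    · exact absurd h h0.ne'
  have h3' : (figureEight a b ha hb).edgeDeriv G true 0 = 0 := by
    rcases div_eq_zero_iff.mp h3 with h | h
    · exact h
    · exact absurd h h0.ne'
  have := eigen_ext h0 hG hG 0 (by rw [h1]; ring) (by rw [h2']; ring) (by rw [h3']; ring)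
  rw [this, zero_smul]

lemma freq_finite (R : ℝ) : (freq a b ha hb ∩ Icc 0 R).Finite := by
  have hsub : freq a b ha hb ∩ Icc 0 R ⊆ {0} ∪ (({κ : ℝ | Real.sin (κ * (a / 2)) = 0} ∩ Icc 0 R) ∪
      (({κ : ℝ | Real.sin (κ * (b / 2)) = 0} ∩ Icc 0 R) ∪
      ({κ : ℝ | Real.sin (κ * ((a + b) / 2)) = 0} ∩ Icc 0 R))) := by
    rintro κ ⟨⟨h0, F, hF, hF0⟩, hR⟩
    rcases eq_or_lt_of_le h0 with h1 | h1
    · exact Or.inl h1.symm
    · right
      by_cases h2 : ss κ a = 0
      · left
        exact ⟨by rw [mem_ofPred_eq, ← h2, ss]; congr 1; ring, hR⟩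
      · right
        by_cases h3 : ss κ b = 0
        · left
          exact ⟨by rw [mem_ofPred_eq, ← h3, ss]; congr 1; ring, hR⟩
        · right
          have h4 := sum_zero (eqs_of_eigen h1 hF) h2 h3 (coeff_ne h1 hF hF0)
          exact ⟨by rw [mem_ofPred_eq, ← h4, ss]; congr 1; ring, hR⟩
  refine Set.Finite.subset ?_ hsub
  refine (finite_singleton 0).union ?_
  refine (finite_sin_zero (by positivity) R).union ?_
  exact (finite_sin_zero (by positivity) R).union (finite_sin_zero (by positivity) R)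

lemma ss_kap_sum (m : ℕ) (hab : 0 < a + b) : ss (kap a b m) (a + b) = 0 := by
  rw [ss]
  have : kap a b m * (a + b) / 2 = m * Real.pi := by
    unfold kap
    field_simp
  rw [this]
  exact Real.sin_nat_mul_pi m

lemma eqs_kap (h : LinearIndependent ℚ (figureEight a b ha hb).len) {m : ℕ} (hm : 1 ≤ m) :
    Eqs (kap a b m) a b 1 (ss (kap a b m) a / tt (kap a b m) a)
      (ss (kap a b m) b / tt (kap a b m) b) := by
  obtain ⟨h1, h2, h3, h4⟩ := nz2 h hm
  set κ := kap a b m with hκ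
  have hs : ss κ a * tt κ b + tt κ a * ss κ b = 0 := by
    rw [← ss_add, hκ]
    exact ss_kap_sum m (by positivity)
  have g1 := ss_tt κ a
  have g2 := ss_tt κ b
  refine ⟨?_, ?_, ?_⟩
  · field_simp
    ring
  · field_simp
    ring
  · have e1 : ss κ a / tt κ a * ss κ a + 1 * tt κ a = 1 / tt κ a := by
      field_simp
      linarith
    have e2 : ss κ b / tt κ b * ss κ b + 1 * tt κ b = 1 / tt κ b := by
      field_simp
      linarith
    rw [e1, e2]
    field_simp
    linarith

lemma mk8_ne_zero {κ c B0 B1 : ℝ} (hc : c ≠ 0) : mk8 a b ha hb κ c B0 B1 ≠ 0 := by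
  intro h
  have := congrFun h (Point.vertex ())
  exact hc this

lemma kap_mem_freq (h : LinearIndependent ℚ (figureEight a b ha hb).len) {m : ℕ} (hm : 1 ≤ m) :
    kap a b m ∈ freq a b ha hb :=
  ⟨(kap_pos (ha := ha) (hb := hb) hm).le, _, mk8_eigen (eqs_kap h hm), mk8_ne_zero one_ne_zero⟩

lemma freq_unbounded (h : LinearIndependent ℚ (figureEight a b ha hb).len) (R : ℝ) :
    ∃ x ∈ freq a b ha hb, R < x := by
  obtain ⟨m, hm⟩ := exists_nat_gt (|R| * (a + b) / (2 * Real.pi) + 1)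
  have hpi := Real.pi_pos
  have h0 : 0 ≤ |R| * (a + b) / (2 * Real.pi) := by positivity
  have hm1 : 1 ≤ m := by
    have : (1 : ℝ) < m := by linarith
    exact_mod_cast this.le
  refine ⟨kap a b m, kap_mem_freq h hm1, ?_⟩
  unfold kap
  rw [lt_div_iff₀ (by positivity)]
  have h1 : |R| * (a + b) / (2 * Real.pi) < m := by linarith
  rw [div_lt_iff₀ (by positivity)] at h1
  have h2 : R * (a + b) ≤ |R| * (a + b) :=
    mul_le_mul_of_nonneg_right (le_abs_self R) (by positivity)
  linarith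

lemma zero_mem_freq : (0 : ℝ) ∈ freq a b ha hb := by
  refine ⟨le_rfl, fun _ => 1, const_eigen 1, ?_⟩
  intro h
  have := congrFun h (Point.vertex ())
  exact one_ne_zero this

theorem exists_list (h : LinearIndependent ℚ (figureEight a b ha hb).len) :
    ∃ (k : ℕ → ℝ) (f : ℕ → (figureEight a b ha hb).Point → ℝ), (figureEight a b ha hb).IsSpectralList k f := by
  obtain ⟨k, hk, hr⟩ := exists_enum (freq a b ha hb) zero_mem_freq (fun x hx => hx.1)
    freq_finite (freq_unbounded h)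
  have hmem : ∀ n, k n ∈ freq a b ha hb := fun n => by rw [← hr]; exact ⟨n, rfl⟩
  choose hnn f hf using hmem
  refine ⟨k, f, hk.monotone, hnn, fun n => (hf n).1, ?_, ?_⟩
  · intro κ
    have hs : Subsingleton {n : ℕ // k n = κ} :=
      ⟨fun x y => Subtype.ext (hk.injective (x.2.trans y.2.symm))⟩
    rcases isEmpty_or_nonempty {n : ℕ // k n = κ} with he | ⟨⟨i⟩⟩
    · exact linearIndependent_empty_type
    · exact LinearIndependent.of_subsingleton i (hf i).2
  · intro κ hκ F hF
    by_cases hF0 : F = 0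
    · rw [hF0]
      exact Submodule.zero_mem _
    · have hκS : κ ∈ freq a b ha hb := ⟨hκ, F, hF, hF0⟩
      rw [← hr] at hκS
      obtain ⟨n, rfl⟩ := hκS
      obtain ⟨r, hr'⟩ := one_dim h hκ hF (hf n).1 (hf n).2
      rw [hr']
      exact Submodule.smul_mem _ _ (Submodule.subset_span ⟨n, rfl, rfl⟩)

end MetricGraph

end Pool.Agent.Lib.MP_ecbb05_mp
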